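import Pool.Agent.T6.H97.TM.Defs

/-! Project TM (MP_41f3d4_co): module CHD. -/

set_option autoImplicit false

namespace Pool.Agent.T6.H97.TM

open Finset

namespace ModCHD

/-- extension of an injective map -/
theorem ext {Γ : Type} [DecidableEq Γ] (P : ℕ) (L : Finset Γ) (f : Γ → ℕ)
    (hf : Set.InjOn f (L : Set Γ)) (hP : ∀ γ ∈ L, f γ < P) (D : Finset Γ) :
    (L ∪ D).card ≤ P → ∃ e : Γ → ℕ, Set.InjOn e ((L ∪ D : Finset Γ) : Set Γ) ∧
      (∀ γ ∈ L ∪ D, e γ < P) ∧ ∀ γ ∈ L, e γ = f γ := by
  classical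
  induction D using Finset.induction_on with
  | empty =>
    intro _
    rw [Finset.union_empty]
    exact ⟨f, hf, hP, fun _ _ => rfl⟩
  | insert a s ha ih =>
    intro hc
    by_cases haL : a ∈ L ∪ s
    · have h1 : L ∪ insert a s = L ∪ s := by
        rw [Finset.union_insert, Finset.insert_eq_of_mem haL]
      rw [h1] at hc ⊢
      exact ih hc
    · have h1 : L ∪ insert a s = insert a (L ∪ s) := Finset.union_insert _ _ _
      rw [h1, Finset.card_insert_of_notMem haL] at hc
      obtain ⟨e, he1, he2, he3⟩ := ih (by omega)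
      have h2 : ((L ∪ s).image e).card < (Finset.range P).card := by
        rw [Finset.card_range]
        exact lt_of_le_of_lt Finset.card_image_le (by omega)
      obtain ⟨v, hv, hv'⟩ := Finset.exists_mem_notMem_of_card_lt_card h2
      rw [Finset.mem_range] at hv
      have hne : ∀ γ ∈ L ∪ s, γ ≠ a := fun γ hγ h => haL (h ▸ hγ)
      refine ⟨Function.update e a v, ?_, ?_, ?_⟩
      · rw [h1]
        intro x hx y hy hxy
        rw [Finset.mem_coe, Finset.mem_insert] at hx hy
        rcases hx with rfl | hx <;> rcases hy with rfl | hy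
        · rfl
        · exfalso
          rw [Function.update_self, Function.update_of_ne (hne y hy)] at hxy
          exact hv' (Finset.mem_image.2 ⟨y, hy, hxy.symm⟩)
        · exfalso
          rw [Function.update_self, Function.update_of_ne (hne x hx)] at hxy
          exact hv' (Finset.mem_image.2 ⟨x, hx, hxy⟩)
        · rw [Function.update_of_ne (hne x hx), Function.update_of_ne (hne y hy)] at hxy
          exact he1 hx hy hxy
      · rw [h1]
        intro γ hγ
        rcases Finset.mem_insert.1 hγ with rfl | hγ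
        · rw [Function.update_self]; exact hv
        · rw [Function.update_of_ne (hne γ hγ)]; exact he2 γ hγ
      · intro γ hγ
        rw [Function.update_of_ne (hne γ (Finset.mem_union_left _ hγ))]
        exact he3 γ hγ

end ModCHD

open ModCHD

theorem chd : S_CHD := by
  classical
  intro V N Γ _ _ _ _ par rk G S T g P hconn hadj hg hcard
  set Gam : N → Finset Γ := fun t => (S.filter (fun x => t ∈ T x)).image g with hGam
  set L : N → Finset Γ := fun t =>
    (S.filter (fun x => t ∈ T x ∧ par t ∈ T x ∧ rk (par t) < rk t)).image g with hL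
  have hLG : ∀ t, L t ⊆ Gam t := by
    intro t γ hγ
    obtain ⟨x, hx, rfl⟩ := Finset.mem_image.1 hγ
    rw [Finset.mem_filter] at hx
    exact Finset.mem_image.2 ⟨x, Finset.mem_filter.2 ⟨hx.1, hx.2.1⟩, rfl⟩
  have hLG' : ∀ t, L t ⊆ Gam (par t) := by
    intro t γ hγ
    obtain ⟨x, hx, rfl⟩ := Finset.mem_image.1 hγ
    rw [Finset.mem_filter] at hx
    exact Finset.mem_image.2 ⟨x, Finset.mem_filter.2 ⟨hx.1, hx.2.2.1⟩, rfl⟩
  have hLr : ∀ t, ∀ γ ∈ L t, rk (par t) < rk t := by
    intro t γ hγ
    obtain ⟨x, hx, rfl⟩ := Finset.mem_image.1 hγ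
    exact (Finset.mem_filter.1 hx).2.2.2
  have key : ∀ n : ℕ, ∃ h : N → Γ → ℕ, ∀ t, rk t < n →
      Set.InjOn (h t) (Gam t : Set Γ) ∧ (∀ γ ∈ Gam t, h t γ < P) ∧
        ∀ γ ∈ L t, h t γ = h (par t) γ := by
    intro n
    induction n with
    | zero => exact ⟨fun _ _ => 0, fun t ht => absurd ht (Nat.not_lt_zero _)⟩
    | succ n ih =>
      obtain ⟨h, hh⟩ := ih
      have hstep : ∀ t, rk t = n → ∃ e : Γ → ℕ, Set.InjOn e (Gam t : Set Γ) ∧
          (∀ γ ∈ Gam t, e γ < P) ∧ ∀ γ ∈ L t, e γ = h (par t) γ := by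
        intro t ht
        have hinj : Set.InjOn (h (par t)) (L t : Set Γ) := by
          intro x hx y hy hxy
          have hr := hLr t x (Finset.mem_coe.1 hx)
          exact (hh (par t) (by omega)).1 (hLG' t hx) (hLG' t hy) hxy
        have hlt : ∀ γ ∈ L t, h (par t) γ < P := by
          intro γ hγ
          have hr := hLr t γ hγ
          exact (hh (par t) (by omega)).2.1 γ (hLG' t hγ)
        have hU : L t ∪ Gam t = Gam t := Finset.union_eq_right.2 (hLG t)
        have h1 := ext P (L t) (h (par t)) hinj hlt (Gam t)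
        rw [hU] at h1
        exact h1 (hcard t)
      choose! e he using hstep
      refine ⟨fun t => if rk t = n then e t else h t, ?_⟩
      intro t ht
      by_cases h1 : rk t = n
      · obtain ⟨e1, e2, e3⟩ := he t h1
        simp only [h1, if_true]
        refine ⟨e1, e2, fun γ hγ => ?_⟩
        have hr := hLr t γ hγ
        have h2 : rk (par t) ≠ n := by omega
        simp only [h2, if_false]
        exact e3 γ hγ
      · obtain ⟨e1, e2, e3⟩ := hh t (by omega)
        simp only [h1, if_false]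
        refine ⟨e1, e2, fun γ hγ => ?_⟩
        have hr := hLr t γ hγ
        have h2 : rk (par t) ≠ n := by omega
        simp only [h2, if_false]
        exact e3 γ hγ
  obtain ⟨h, hh⟩ := key ((Finset.univ.sup rk) + 1)
  have hh' : ∀ t, Set.InjOn (h t) (Gam t : Set Γ) ∧ (∀ γ ∈ Gam t, h t γ < P) ∧
        ∀ γ ∈ L t, h t γ = h (par t) γ :=
    fun t => hh t (Nat.lt_succ_of_le (Finset.le_sup (Finset.mem_univ t)))
  -- constancy on the subtree
  have hconst : ∀ x ∈ S, ∃ c : ℕ, (∀ t ∈ T x, h t (g x) = c) ∧ c < P := by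
    intro x hx
    obtain ⟨a, ha, ha'⟩ := hconn x hx
    refine ⟨h a (g x), ?_, ?_⟩
    · intro t ht
      induction hn : rk t using Nat.strong_induction_on generalizing t with
      | _ n ih =>
        by_cases hta : t = a
        · rw [hta]
        · obtain ⟨h1, h2⟩ := ha' t ht hta
          have h3 : g x ∈ L t :=
            Finset.mem_image.2 ⟨x, Finset.mem_filter.2 ⟨hx, ht, h1, h2⟩, rfl⟩
          rw [(hh' t).2.2 (g x) h3]
          exact ih (rk (par t)) (by omega) (par t) h1 rfl
    · exact (hh' a).2.1 (g x) (Finset.mem_image.2 ⟨x, Finset.mem_filter.2 ⟨hx, ha⟩, rfl⟩)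
  choose! c hc1 hc2 using hconst
  refine ⟨c, hc2, ?_⟩
  intro u hu v hv huv hcuv
  obtain ⟨z, hz⟩ := hadj u hu v hv huv
  obtain ⟨hzu, hzv⟩ := Finset.mem_inter.1 hz
  have h1 := hc1 u hu z hzu
  have h2 := hc1 v hv z hzv
  have h3 : h z (g u) = h z (g v) := by rw [h1, h2, hcuv]
  have h4 := (hh' z).1
    (Finset.mem_coe.2 (Finset.mem_image.2 ⟨u, Finset.mem_filter.2 ⟨hu, hzu⟩, rfl⟩))
    (Finset.mem_coe.2 (Finset.mem_image.2 ⟨v, Finset.mem_filter.2 ⟨hv, hzv⟩, rfl⟩)) h3
  exact hg u hu v hv huv h4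

end Pool.Agent.T6.H97.TM
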