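import Pool.Agent.T6.H97.TM.Defs
import Pool.Agent.T6.H5.TM.Rec

set_option autoImplicit false

/-! TM.FIN: from the hitting set statement to the frozen statement S08375. -/

namespace Pool.Agent.T6.H97.TM

open Finset Pool.Agent.T6.H5.TM

theorem fin_sub {V N : Type} [DecidableEq V] [DecidableEq N] {par : N → N} {rk : N → ℕ}
    {G : SimpleGraph V} {w k : ℕ} {A B : Finset V} {T : V → Finset N}
    (h : Good par rk G w k A T) (hB : B ⊆ A) : Good par rk G w k B T :=
  ⟨fun v hv => h.conn v (hB hv), fun u hu v hv => h.adj u (hB hu) v (hB hv),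
    fun i S hS => h.mu i S (hS.trans hB), fun s hs => h.cl s (hs.trans hB)⟩

theorem fin_empty {V N : Type} [DecidableEq V] [DecidableEq N] {par : N → N} {rk : N → ℕ}
    {G : SimpleGraph V} {k : ℕ} {A : Finset V} {T : V → Finset N}
    (h : Good par rk G 0 k A T) : A = ∅ := by
  by_contra hA
  obtain ⟨v, hv⟩ := Finset.nonempty_iff_ne_empty.2 hA
  have := h.cl {v} (by simpa using hv) (by simp)
  simp at this

theorem fin_zero {V N : Type} [DecidableEq V] [DecidableEq N] {par : N → N} {rk : N → ℕ}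
    {G : SimpleGraph V} {w : ℕ} {A : Finset V} {T : V → Finset N}
    (h : Good par rk G w 0 A T) : ∀ u ∈ A, ∀ v ∈ A, ¬ G.Adj u v := by
  intro u hu v hv huv
  obtain ⟨i, hi⟩ := h.adj u hu v hv huv
  obtain ⟨hi1, hi2⟩ := Finset.mem_inter.1 hi
  have hne : u ≠ v := G.ne_of_adj huv
  have key := h.mu i {u, v} ?_ ?_ ?_
  · rw [Finset.card_pair hne] at key
    omega
  · intro z hz
    simp only [Finset.mem_insert, Finset.mem_singleton] at hz
    rcases hz with h1 | h1 <;> rw [h1] <;> assumption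
  · intro z hz
    simp only [Finset.mem_insert, Finset.mem_singleton] at hz
    rcases hz with h1 | h1
    · rw [h1]
      refine ⟨v, ⟨by simp, huv⟩, ?_⟩
      rintro y ⟨hy, hay⟩
      simp only [Finset.mem_insert, Finset.mem_singleton] at hy
      rcases hy with h2 | h2
      · rw [h2] at hay; exact absurd hay (G.irrefl)
      · exact h2
    · rw [h1]
      refine ⟨u, ⟨by simp, huv.symm⟩, ?_⟩
      rintro y ⟨hy, hay⟩
      simp only [Finset.mem_insert, Finset.mem_singleton] at hy
      rcases hy with h2 | h2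
      · exact h2
      · rw [h2] at hay; exact absurd hay (G.irrefl)
  · intro z hz
    simp only [Finset.mem_insert, Finset.mem_singleton] at hz
    rcases hz with h1 | h1
    · rw [h1]; exact ⟨v, by simp, huv, Or.inl hi1⟩
    · rw [h1]; exact ⟨u, by simp, huv.symm, Or.inl hi2⟩

/-- The recursion. -/
def FF : ℕ → ℕ → ℕ
  | 0, w => if w = 0 then 0 else 1
  | _ + 1, 0 => 0
  | k + 1, w + 1 => FF (k + 1) w + ((w + 2) ^ (k + 1)) ^ 3 * (1 + w * FF k (w + 1))

theorem FF_zero (k : ℕ) : FF k 0 = 0 := by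
  cases k with
  | zero => simp [FF]
  | succ k => simp [FF]

theorem FF_poly (k : ℕ) : PolyB (FF k) := by
  induction k with
  | zero =>
    refine (PolyB.const 1).mono (fun w => ?_)
    rw [FF]
    split_ifs <;> omega
  | succ k ih =>
    have h1 : PolyB (fun w => ((w + 2) ^ (k + 1)) ^ 3 * (1 + w * FF k (w + 1))) := by
      apply PolyB.mul
      · apply PolyB.pow
        apply PolyB.pow
        exact PolyB.add PolyB.id (PolyB.const 2)
      · apply PolyB.add (PolyB.const 1)
        exact PolyB.mul PolyB.id ih.shift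
    refine PolyB.sum h1 (PolyB.const _) (fun w => ?_)
    show FF (k + 1) (w + 1) ≤ FF (k + 1) w + _
    rw [FF]

theorem fin_core (hHIT : S_HIT) (k : ℕ) : ∀ (V N : Type) [DecidableEq V] [DecidableEq N]
    [Fintype N] (par : N → N) (rk : N → ℕ) (G : SimpleGraph V) (w : ℕ) (A : Finset V)
    (T : V → Finset N), Good par rk G w k A T → Col G A (FF k w) := by
  induction k with
  | zero =>
    intro V N _ _ _ par rk G w A T h
    cases w with
    | zero =>
      rw [fin_empty h]
      exact ⟨fun _ => 0, by simp, by simp⟩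
    | succ w =>
      have : FF 0 (w + 1) = 1 := by simp [FF]
      rw [this]
      exact Col.indep (fin_zero h)
  | succ k ihk =>
    intro V N _ _ _ par rk G w
    induction w with
    | zero =>
      intro A T h
      rw [fin_empty h]
      exact ⟨fun _ => 0, by simp, by simp⟩
    | succ w ihw =>
      intro A T h
      classical
      set A' : Finset V := A.filter (fun x => ∃ K, IsK G A (w + 1) K ∧ x ∈ K) with hA'
      have hsub : A' ⊆ A := Finset.filter_subset _ _
      have hKA' : ∀ K, IsK G A (w + 1) K → K ⊆ A' := by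
        intro K hK x hx
        exact Finset.mem_filter.2 ⟨hK.1 hx, K, hK, hx⟩
      obtain ⟨S, hSA, hScol, hScl⟩ := hHIT V N par rk G w k (FF k (w + 1)) A' T
        (fin_sub h hsub) (fun B T' hB => ihk V N par rk G (w + 1) B T' hB) (by
          intro x hx
          obtain ⟨-, K, hK, hxK⟩ := Finset.mem_filter.1 hx
          exact ⟨K, ⟨hKA' K hK, hK.2.1, hK.2.2⟩, hxK⟩)
      have hrest : Good par rk G w (k + 1) (A \ S) T := by
        have hs := fin_sub h (B := A \ S) Finset.sdiff_subset
        refine ⟨hs.conn, hs.adj, hs.mu, ?_⟩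
        intro Q hQ1 hQ2
        have hQ3 := hs.cl Q hQ1 hQ2
        by_contra hcon
        have hQK : IsK G A (w + 1) Q := ⟨hQ1.trans Finset.sdiff_subset, hQ2, by omega⟩
        have h1 := hScl Q (by
          intro x hx
          exact Finset.mem_sdiff.2 ⟨hKA' Q hQK hx, (Finset.mem_sdiff.1 (hQ1 hx)).2⟩) hQ2
        omega
      have h2 := (ihw (A \ S) T hrest).union hScol
      refine h2.mono ?_ ?_
      · intro x hx
        by_cases hxS : x ∈ S
        · exact Finset.mem_union_right _ hxS
        · exact Finset.mem_union_left _ (Finset.mem_sdiff.2 ⟨hx, hxS⟩)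
      · rw [FF]

/-- TM.FIN: the frozen statement S08375. -/
theorem fin (hHIT : S_HIT) :
    ∀ k : ℕ, ∃ c d : ℕ, ∀ (V : Type) [Fintype V] (G : SimpleGraph V),
      (∃ n : ℕ, ∃ T : SimpleGraph (Fin n), ∃ bag : Fin n → Finset V,
        T.IsTree ∧
        (∀ v : V, ∃ i : Fin n, v ∈ bag i) ∧
        (∀ u v : V, G.Adj u v → ∃ i : Fin n, u ∈ bag i ∧ v ∈ bag i) ∧
        (∀ v : V, ∀ i j : Fin n, v ∈ bag i → v ∈ bag j →
          ∃ p : T.Walk i j, ∀ x ∈ p.support, v ∈ bag x) ∧
        (∀ i : Fin n, ∀ S : Finset V,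
          (∀ v ∈ S, ∃! u : V, u ∈ S ∧ G.Adj v u) →
          (∀ v ∈ S, ∃ u ∈ S, G.Adj v u ∧ (v ∈ bag i ∨ u ∈ bag i)) →
          S.card ≤ 2 * k)) →
      G.chromaticNumber ≤ ((c * G.cliqueNum ^ d : ℕ) : ℕ∞) := by
  intro k
  obtain ⟨c, d, hcd⟩ := (FF_poly k).final (FF_zero k)
  refine ⟨c, d, ?_⟩
  intro V _ G h
  classical
  obtain ⟨n, T, bag, hT, hcov, hedge, hint, hmu⟩ := h
  obtain ⟨par, rk, hconn⟩ := conn_of_tree hT
  let B : V → Finset (Fin n) := fun v => Finset.univ.filter (fun i => v ∈ bag i)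
  have hmemB : ∀ v i, i ∈ B v ↔ v ∈ bag i := fun v i => by simp [B]
  have hgood : Good par rk G G.cliqueNum k Finset.univ B := by
    refine ⟨?_, ?_, ?_, ?_⟩
    · intro v _
      apply hconn (B v)
      · obtain ⟨i, hi⟩ := hcov v
        exact ⟨i, (hmemB v i).2 hi⟩
      · intro i hi j hj
        obtain ⟨p, hp⟩ := hint v i j ((hmemB v i).1 hi) ((hmemB v j).1 hj)
        exact ⟨p, fun x hx => (hmemB v x).2 (hp x hx)⟩
    · intro u _ v _ huv
      obtain ⟨i, hi1, hi2⟩ := hedge u v huv
      exact ⟨i, Finset.mem_inter.2 ⟨(hmemB u i).2 hi1, (hmemB v i).2 hi2⟩⟩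
    · intro i S _ hS1 hS2
      exact hmu i S hS1 (by
        intro v hv
        obtain ⟨u, hu, huv, hor⟩ := hS2 v hv
        refine ⟨u, hu, huv, ?_⟩
        rcases hor with h1 | h1
        · exact Or.inl ((hmemB v i).1 h1)
        · exact Or.inr ((hmemB u i).1 h1))
    · intro s _ hs
      exact SimpleGraph.IsClique.card_le_cliqueNum (tc := hs)
  obtain ⟨f, hf1, hf2⟩ := fin_core hHIT k V (Fin n) par rk G G.cliqueNum Finset.univ B hgood
  have hcolor : G.Colorable (FF k G.cliqueNum) :=
    ⟨SimpleGraph.Coloring.mk (fun v => (⟨f v, hf1 v (Finset.mem_univ v)⟩ : Fin _)) (by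
      intro u v huv heq
      exact hf2 u (Finset.mem_univ u) v (Finset.mem_univ v) huv (by
        simpa using congrArg Fin.val heq))⟩
  refine hcolor.chromaticNumber_le.trans ?_
  exact_mod_cast hcd G.cliqueNum

end Pool.Agent.T6.H97.TM
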