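import Pool.Agent.T6.H97.TM.Defs

/-! Project TM (MP_41f3d4_co): module HIT. -/

set_option autoImplicit false

namespace Pool.Agent.T6.H97.TM

open Finset

namespace ModHIT

/-- an irredundant subfamily with the same union -/
theorem exists_irr {V N : Type} [DecidableEq V] [DecidableEq N] (T : V → Finset N)
    (A : Finset V) : ∃ F ⊆ A, Irr T F ∧ A.biUnion T ⊆ F.biUnion T := by
  classical
  have hne : ((A.powerset.filter fun F => A.biUnion T ⊆ F.biUnion T)).Nonempty :=
    ⟨A, Finset.mem_filter.2 ⟨Finset.mem_powerset.2 (Finset.Subset.refl _),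
      Finset.Subset.refl _⟩⟩
  obtain ⟨F, hF, hmin⟩ := Finset.exists_min_image _ Finset.card hne
  rw [Finset.mem_filter, Finset.mem_powerset] at hF
  refine ⟨F, hF.1, ?_, hF.2⟩
  intro y hy
  by_contra hcon
  push Not at hcon
  have h1 : A.biUnion T ⊆ (F.erase y).biUnion T := by
    intro s hs
    obtain ⟨x, hx, hsx⟩ := Finset.mem_biUnion.1 (hF.2 hs)
    by_cases hxy : x = y
    · subst hxy
      obtain ⟨y', hy', hne', hs'⟩ := hcon s hsx
      exact Finset.mem_biUnion.2 ⟨y', Finset.mem_erase.2 ⟨hne', hy'⟩, hs'⟩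
    · exact Finset.mem_biUnion.2 ⟨x, Finset.mem_erase.2 ⟨hxy, hx⟩, hsx⟩
  have h2 := hmin (F.erase y) (Finset.mem_filter.2 ⟨Finset.mem_powerset.2
    ((Finset.erase_subset _ _).trans hF.1), h1⟩)
  have h3 := Finset.card_erase_lt_of_mem hy
  omega

end ModHIT

open ModHIT

theorem hit (hRED : S_RED) (hL1 : S_L1) (hRAM : S_RAM) (hPHI : S_PHI) (hPIV : S_PIV)
    (hCHD : S_CHD) : S_HIT := by
  classical
  intro V N _ _ _ par rk G w k f A T hgood hcol hK
  rcases A.eq_empty_or_nonempty with rfl | hA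
  · refine ⟨∅, Finset.Subset.refl _, ⟨fun _ => 0, fun v hv => absurd hv (Finset.notMem_empty v),
      fun v hv => absurd hv (Finset.notMem_empty v)⟩, ?_⟩
    intro Q hQ _
    have h1 : Q = ∅ := by
      rw [Finset.sdiff_empty] at hQ
      exact Finset.subset_empty.1 hQ
    rw [h1]
    simp
  obtain ⟨T1, hgood1, hred⟩ := hRED V N par rk G (w + 1) (k + 1) A T hgood
  have hNne : Nonempty N := by
    obtain ⟨x0, hx0⟩ := hA
    obtain ⟨a0, -, -⟩ := hgood1.conn x0 hx0
    exact ⟨a0⟩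
  set n : ℕ := (w + 2) ^ (k + 1) with hn
  have hirr : ∀ (z : N) (F : Finset V), F ⊆ A → (∀ y ∈ F, z ∈ T1 y) → Irr T1 F →
      F.card ≤ n := by
    intro z F hFA hz hF
    refine hRAM V G (w + 1) (k + 1) F (fun s hs hcl => hgood1.cl s (hs.trans hFA) hcl) ?_
    intro s hs hind
    refine hL1 V N par rk G (w + 1) (k + 1) A T1 (by omega) hgood1 hred z s (hs.trans hFA)
      (fun y hy => hz y (hs hy)) ?_ hind
    intro y hy
    obtain ⟨s0, h1, h2⟩ := hF y (hs hy)
    exact ⟨s0, h1, fun y' hy' hne => h2 y' (hs hy') hne⟩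
  obtain ⟨phi, hphi1, hphi2⟩ := hPHI V N par rk A T1 n hA hgood1.conn hirr
  set S : Finset V := A.filter (fun x => ∃ t ∈ T1 x, ¬ G.Adj x (phi t)) with hS
  have hSA : S ⊆ A := Finset.filter_subset _ _
  refine ⟨S, hSA, ?_, ?_⟩
  · -- the colouring
    have hchoose : ∀ x ∈ S, ∃ t ∈ T1 x, ¬ G.Adj x (phi t) := fun x hx =>
      (Finset.mem_filter.1 hx).2
    choose! tx htx1 htx2 using hchoose
    have hmA : ∀ x ∈ S, phi (tx x) ∈ A ∧ tx x ∈ T1 (phi (tx x)) := fun x hx =>
      hphi1 x (hSA hx) (tx x) (htx1 x hx)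
    have hkap : ∀ m ∈ A, Col G (A.filter fun x => (T1 x ∩ T1 m).Nonempty ∧ ¬ G.Adj x m)
        (1 + w * f) := by
      intro m hm
      obtain ⟨K, hK1, hK2⟩ := hK m hm
      exact hPIV V N par rk G w k f A T1 hgood1 hcol K m hK1 hK2 _ (Finset.filter_subset _ _)
        (fun x hx => (Finset.mem_filter.1 hx).2)
    have hkap' : ∀ m ∈ A, ∃ c : V → ℕ,
        (∀ v ∈ A, (T1 v ∩ T1 m).Nonempty → ¬ G.Adj v m → c v < 1 + w * f) ∧
        ∀ u ∈ A, (T1 u ∩ T1 m).Nonempty → ¬ G.Adj u m → ∀ v ∈ A, (T1 v ∩ T1 m).Nonempty →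
          ¬ G.Adj v m → G.Adj u v → c u ≠ c v := by
      intro m hm
      obtain ⟨c, h1, h2⟩ := hkap m hm
      exact ⟨c, fun v hv ha hb => h1 v (Finset.mem_filter.2 ⟨hv, ha, hb⟩),
        fun u hu ha hb v hv hc hd => h2 u (Finset.mem_filter.2 ⟨hu, ha, hb⟩) v
          (Finset.mem_filter.2 ⟨hv, hc, hd⟩)⟩
    choose! kap hkap1 hkap2 using hkap'
    have hmeet : ∀ x ∈ S, (T1 x ∩ T1 (phi (tx x))).Nonempty := fun x hx =>
      ⟨tx x, Finset.mem_inter.2 ⟨htx1 x hx, (hmA x hx).2⟩⟩
    have hres := hCHD V N (V × ℕ) par rk G S T1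
      (fun x => (phi (tx x), kap (phi (tx x)) x)) (n ^ 3 * (1 + w * f))
      (fun v hv => hgood1.conn v (hSA hv))
      (fun u hu v hv => hgood1.adj u (hSA hu) v (hSA hv)) ?_ ?_
    · exact hres
    · intro u hu v hv huv hg
      simp only [Prod.mk.injEq] at hg
      obtain ⟨h1, h2⟩ := hg
      have hu1 := hmeet u hu
      have hu2 := htx2 u hu
      have hv1 := hmeet v hv
      have hv2 := htx2 v hv
      rw [← h1] at hv1 hv2 h2
      exact hkap2 (phi (tx u)) (hmA u hu).1 u (hSA hu) hu1 hu2 v (hSA hv) hv1 hv2 huv h2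
    · intro t
      obtain ⟨F, hFA, hF, hFU⟩ := exists_irr T1 (A.filter fun x => t ∈ T1 x)
      have hFA' : F ⊆ A := hFA.trans (Finset.filter_subset _ _)
      have hFcard : F.card ≤ n := hirr t F hFA'
        (fun y hy => (Finset.mem_filter.1 (hFA hy)).2) hF
      have hsub : (S.filter (fun x => t ∈ T1 x)).image
          (fun x => (phi (tx x), kap (phi (tx x)) x)) ⊆
          (F.biUnion fun y => (T1 y).image phi) ×ˢ Finset.range (1 + w * f) := by
        intro p hp
        obtain ⟨x, hx, rfl⟩ := Finset.mem_image.1 hp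
        obtain ⟨hxS, hxt⟩ := Finset.mem_filter.1 hx
        rw [Finset.mem_product]
        constructor
        · have h1 : tx x ∈ (A.filter fun x => t ∈ T1 x).biUnion T1 :=
            Finset.mem_biUnion.2 ⟨x, Finset.mem_filter.2 ⟨hSA hxS, hxt⟩, htx1 x hxS⟩
          obtain ⟨y, hy, hty⟩ := Finset.mem_biUnion.1 (hFU h1)
          exact Finset.mem_biUnion.2 ⟨y, hy, Finset.mem_image.2 ⟨tx x, hty, rfl⟩⟩
        · rw [Finset.mem_range]
          exact hkap1 (phi (tx x)) (hmA x hxS).1 x (hSA hxS) (hmeet x hxS) (htx2 x hxS)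
      refine (Finset.card_le_card hsub).trans ?_
      rw [Finset.card_product, Finset.card_range]
      have h2 : (F.biUnion fun y => (T1 y).image phi).card ≤ n * (n * n) := by
        refine (Finset.card_biUnion_le_card_mul F _ (n * n)
          (fun y hy => hphi2 y (hFA' hy))).trans ?_
        exact Nat.mul_le_mul_right _ hFcard
      have h3 : n ^ 3 = n * (n * n) := by ring
      rw [h3]
      exact Nat.mul_le_mul_right _ h2
  · -- the cliques outside of `S`
    intro Q hQ hcl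
    by_contra hcon
    push Not at hcon
    have hQA : Q ⊆ A := hQ.trans Finset.sdiff_subset
    have hQne : Q.Nonempty := by
      rw [← Finset.card_pos]; omega
    obtain ⟨m, hm, a, ha, hall⟩ := exists_last Q hQne T1
      (fun v hv => hgood1.conn v (hQA hv))
    have haQ : ∀ x ∈ Q, a ∈ T1 x := by
      intro x hx
      by_cases hxm : x = m
      · rw [hxm]; exact ha
      · refine hall x hx (hgood1.adj m (hQA hm) x (hQA hx) ?_)
        exact hcl (Finset.mem_coe.2 hm) (Finset.mem_coe.2 hx) (Ne.symm hxm)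
    have hadj : ∀ x ∈ Q, G.Adj x (phi a) := by
      intro x hx
      by_contra h1
      have h2 := (Finset.mem_sdiff.1 (hQ hx)).2
      exact h2 (Finset.mem_filter.2 ⟨hQA hx, a, haQ x hx, h1⟩)
    have hpa : phi a ∈ A := (hphi1 m (hQA hm) a ha).1
    have hnotin : phi a ∉ Q := fun h => G.loopless.irrefl _ (hadj _ h)
    have hcl2 : G.IsClique ((insert (phi a) Q : Finset V) : Set V) := by
      rw [Finset.coe_insert]
      refine hcl.insert ?_
      intro x hx _
      exact (hadj x (Finset.mem_coe.1 hx)).symm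
    have h3 := hgood1.cl (insert (phi a) Q) (Finset.insert_subset hpa hQA) hcl2
    rw [Finset.card_insert_of_notMem hnotin] at h3
    omega

end Pool.Agent.T6.H97.TM
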