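import Pool.Agent.T6.H97.TM.Defs

set_option autoImplicit false
set_option linter.unusedSectionVars false

/-!
# TM.L1: independent irredundant families through a node have at most `k` members
-/

namespace Pool.Agent.T6.H97.TM

open Finset

section

variable {V : Type} [DecidableEq V] {N : Type} [DecidableEq N]
variable {par : N → N} {rk : N → ℕ} {G : SimpleGraph V}

/-- The induced matching number with the edges written as `y`, `e y`. -/
theorem Good.mu_edges {w k : ℕ} {A : Finset V} {T : V → Finset N} (h : Good par rk G w k A T)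
    (i : N) (F : Finset V) (e : V → V) (hF : F ⊆ A)
    (h1 : ∀ y ∈ F, i ∈ T y ∧ e y ∈ A ∧ G.Adj y (e y))
    (h2 : ∀ y ∈ F, ∀ z ∈ F, y ≠ z → ¬ G.Adj y z ∧ ¬ G.Adj y (e z) ∧ ¬ G.Adj (e y) (e z)) :
    F.card ≤ k := by
  classical
  have hdisj : Disjoint F (F.image e) := by
    rw [Finset.disjoint_left]
    intro x hx hx'
    obtain ⟨y, hy, rfl⟩ := Finset.mem_image.1 hx'
    by_cases hxy : y = e y
    · exact G.ne_of_adj (h1 y hy).2.2 hxy
    · exact (h2 y hy (e y) hx hxy).1 (h1 y hy).2.2
  have hinj : Set.InjOn e (F : Set V) := by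
    intro y hy z hz hyz
    by_contra hne
    have := (h1 y hy).2.2
    rw [show e y = e z from hyz] at this
    exact (h2 y hy z hz hne).2.1 this
  have hcard : (F ∪ F.image e).card = 2 * F.card := by
    rw [Finset.card_union_of_disjoint hdisj, Finset.card_image_of_injOn hinj]
    omega
  have hkey := h.mu i (F ∪ F.image e) ?_ ?_ ?_
  · omega
  · intro x hx
    rcases Finset.mem_union.1 hx with h3 | h3
    · exact hF h3
    · obtain ⟨y, hy, rfl⟩ := Finset.mem_image.1 h3
      exact (h1 y hy).2.1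
  · intro x hx
    rcases Finset.mem_union.1 hx with h3 | h3
    · refine ⟨e x, ⟨Finset.mem_union_right _ (Finset.mem_image_of_mem e h3), (h1 x h3).2.2⟩, ?_⟩
      rintro u ⟨hu, hxu⟩
      rcases Finset.mem_union.1 hu with h4 | h4
      · by_cases hux : x = u
        · exact absurd hux (G.ne_of_adj hxu)
        · exact absurd hxu (h2 x h3 u h4 hux).1
      · obtain ⟨z, hz, rfl⟩ := Finset.mem_image.1 h4
        by_cases hzx : x = z
        · rw [hzx]
        · exact absurd hxu (h2 x h3 z hz hzx).2.1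
    · obtain ⟨y, hy, rfl⟩ := Finset.mem_image.1 h3
      refine ⟨y, ⟨Finset.mem_union_left _ hy, (h1 y hy).2.2.symm⟩, ?_⟩
      rintro u ⟨hu, hxu⟩
      rcases Finset.mem_union.1 hu with h4 | h4
      · by_cases hux : u = y
        · exact hux
        · exact absurd hxu.symm (h2 u h4 y hy hux).2.1
      · obtain ⟨z, hz, rfl⟩ := Finset.mem_image.1 h4
        by_cases hzy : y = z
        · rw [hzy] at hxu
          exact absurd hxu G.irrefl
        · exact absurd hxu (h2 y hy z hz hzy).2.2
  · intro x hx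
    rcases Finset.mem_union.1 hx with h3 | h3
    · exact ⟨e x, Finset.mem_union_right _ (Finset.mem_image_of_mem e h3), (h1 x h3).2.2,
        Or.inl (h1 x h3).1⟩
    · obtain ⟨y, hy, rfl⟩ := Finset.mem_image.1 h3
      exact ⟨y, Finset.mem_union_left _ hy, (h1 y hy).2.2.symm, Or.inr (h1 y hy).1⟩

theorem conn_biUnion {T : V → Finset N} {t : N} (F : Finset V) (hne : F.Nonempty)
    (hF : ∀ y ∈ F, Conn par rk (T y)) (ht : ∀ y ∈ F, t ∈ T y) : Conn par rk (F.biUnion T) := by
  classical
  induction F using Finset.induction_on with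
  | empty => exact absurd hne (by simp)
  | insert a s ha ih =>
    rw [Finset.biUnion_insert]
    by_cases hs : s.Nonempty
    · have h1 := ih hs (fun y hy => hF y (Finset.mem_insert_of_mem hy))
        (fun y hy => ht y (Finset.mem_insert_of_mem hy))
      obtain ⟨y, hy⟩ := hs
      refine Conn.union (hF a (Finset.mem_insert_self a s)) h1 ⟨t, Finset.mem_inter.2 ⟨?_, ?_⟩⟩
      · exact ht a (Finset.mem_insert_self a s)
      · exact Finset.mem_biUnion.2 ⟨y, hy, ht y (Finset.mem_insert_of_mem hy)⟩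
    · rw [Finset.not_nonempty_iff_eq_empty] at hs
      rw [hs]
      simpa using hF a (Finset.mem_insert_self a s)

end

theorem l1 : S_L1 := by
  intro V N _ _ par rk G w k A T hk h hred t F hF ht hirr hind
  classical
  by_cases h1 : F.card ≤ 1
  · omega
  have hex : ∀ y, ∃ e, y ∈ F → e ∈ A ∧ G.Adj y e ∧ ∀ z ∈ F, z ≠ y → ¬ (T e ∩ T z).Nonempty := by
    intro y
    by_cases hy : y ∈ F
    · have hne : (F.erase y).Nonempty := by
        rw [← Finset.card_pos, Finset.card_erase_of_mem hy]; omega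
      have hU : Conn par rk ((F.erase y).biUnion T) :=
        conn_biUnion (F.erase y) hne (fun z hz => h.conn z (hF (Finset.mem_of_mem_erase hz)))
          (fun z hz => ht z (Finset.mem_of_mem_erase hz))
      have hmeet : (T y ∩ (F.erase y).biUnion T).Nonempty := by
        obtain ⟨z, hz⟩ := hne
        exact ⟨t, Finset.mem_inter.2 ⟨ht y hy, Finset.mem_biUnion.2
          ⟨z, hz, ht z (Finset.mem_of_mem_erase hz)⟩⟩⟩
      by_contra hcon
      push Not at hcon
      have hsub : T y ⊆ T y ∩ (F.erase y).biUnion T := by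
        apply hred y (hF hy) _ Finset.inter_subset_left (Conn.inter (h.conn y (hF hy)) hU hmeet)
        intro q hq hyq
        obtain ⟨z, hz, hzy, hne'⟩ := (hcon q).2 hq hyq
        have h5 : (((F.erase y).biUnion T) ∩ T q).Nonempty := by
          obtain ⟨i, hi⟩ := hne'
          obtain ⟨hi1, hi2⟩ := Finset.mem_inter.1 hi
          exact ⟨i, Finset.mem_inter.2 ⟨Finset.mem_biUnion.2
            ⟨z, Finset.mem_erase.2 ⟨hzy, hz⟩, hi2⟩, hi1⟩⟩
        obtain ⟨i, i1, i2, i3⟩ := helly (h.conn y (hF hy)) hU (h.conn q hq) hmeet h5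
          (h.adj y (hF hy) q hq hyq)
        exact ⟨i, Finset.mem_inter.2 ⟨Finset.mem_inter.2 ⟨i1, i2⟩, i3⟩⟩
      obtain ⟨s, hs, hs'⟩ := hirr y hy
      obtain ⟨z, hz, hsz⟩ := Finset.mem_biUnion.1 (Finset.mem_inter.1 (hsub hs)).2
      exact hs' z (Finset.mem_of_mem_erase hz) (Finset.ne_of_mem_erase hz) hsz
    · exact ⟨y, fun hh => absurd hh hy⟩
  choose e he using hex
  refine h.mu_edges t F e hF (fun y hy => ⟨ht y hy, (he y hy).1, (he y hy).2.1⟩) ?_
  intro y hy z hz hyz
  obtain ⟨y1, y2, y3⟩ := he y hy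
  obtain ⟨z1, z2, z3⟩ := he z hz
  refine ⟨hind y hy z hz, ?_, ?_⟩
  · intro hh
    have := h.adj y (hF hy) (e z) z1 hh
    rw [Finset.inter_comm] at this
    exact z3 y hy hyz this
  · intro hh
    exact noC4 (h.conn y (hF hy)) (h.conn z (hF hz)) (h.conn _ y1) (h.conn _ z1)
      ⟨t, Finset.mem_inter.2 ⟨ht y hy, ht z hz⟩⟩ (h.adj y (hF hy) _ y1 y2)
      (h.adj z (hF hz) _ z1 z2) (y3 z hz hyz.symm) (z3 y hy hyz) (h.adj _ y1 _ z1 hh)

end Pool.Agent.T6.H97.TM
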