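import Pool.Agent.T6.H97.TM.Defs

set_option autoImplicit false

namespace Pool.Agent.T6.H97.TM

open Finset

section phi

variable {V N : Type} [DecidableEq V] [DecidableEq N]

/-- a minimal subfamily with the same union -/
theorem exists_irr (B : Finset V) (T : V → Finset N) :
    ∃ F : Finset V, F ⊆ B ∧ Irr T F ∧ ∀ y ∈ B, ∀ s ∈ T y, ∃ y' ∈ F, s ∈ T y' := by
  classical
  have hne : (B.powerset.filter (fun F => ∀ y ∈ B, ∀ s ∈ T y, ∃ y' ∈ F, s ∈ T y')).Nonempty :=
    ⟨B, by
      rw [Finset.mem_filter]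
      exact ⟨Finset.mem_powerset.2 (Finset.Subset.refl _), fun y hy s hs => ⟨y, hy, hs⟩⟩⟩
  obtain ⟨F, hF, hmin⟩ := Finset.exists_min_image _ (fun F : Finset V => F.card) hne
  rw [Finset.mem_filter, Finset.mem_powerset] at hF
  refine ⟨F, hF.1, ?_, hF.2⟩
  intro y hy
  by_contra hcon
  push Not at hcon
  have h1 : F.erase y ∈ B.powerset.filter (fun F => ∀ y ∈ B, ∀ s ∈ T y, ∃ y' ∈ F, s ∈ T y') := by
    rw [Finset.mem_filter, Finset.mem_powerset]
    refine ⟨(Finset.erase_subset _ _).trans hF.1, ?_⟩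
    intro x hx s hs
    obtain ⟨y', hy', hs'⟩ := hF.2 x hx s hs
    by_cases hyy : y' = y
    · rw [hyy] at hs'
      obtain ⟨y2, hy2, hne2, hs2⟩ := hcon s hs'
      exact ⟨y2, Finset.mem_erase.2 ⟨hne2, hy2⟩, hs2⟩
    · exact ⟨y', Finset.mem_erase.2 ⟨hyy, hy'⟩, hs'⟩
  have h2 := hmin _ h1
  have h3 : (F.erase y).card < F.card := Finset.card_erase_lt_of_mem hy
  omega

/-- node `s` is covered by the centre set `Z` -/
def Cov (A : Finset V) (T : V → Finset N) (Z : Finset N) (s : N) : Prop :=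
  ∃ z ∈ Z, ∃ y ∈ A, s ∈ T y ∧ z ∈ T y

/-- the invariant of the choice of centres -/
structure Inv (A : Finset V) (T : V → Finset N) (d : V → ℕ) (Z : Finset N) (reg : N → N)
    (o : N → V) : Prop where
  org : ∀ z ∈ Z, o z ∈ A ∧ z ∈ T (o z)
  anti : ∀ y ∈ A, ∀ z ∈ Z, ∀ z' ∈ Z, z ∈ T y → z' ∈ T y → z = z'
  regm : ∀ s, Cov A T Z s → reg s ∈ Z ∧ ∃ y ∈ A, s ∈ T y ∧ reg s ∈ T y
  dep : ∀ s, Cov A T Z s → ∀ x ∈ A, s ∈ T x → d (o (reg s)) ≤ d x

theorem centres (A : Finset V) (T : V → Finset N) (d : V → ℕ) :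
    ∀ (n : ℕ) (Z : Finset N) (reg : N → N) (o : N → V), Inv A T d Z reg o →
      (∃ U : Finset V, U ⊆ A ∧ U.card ≤ n ∧ ∀ x ∈ A, (∃ s ∈ T x, ¬ Cov A T Z s) → x ∈ U) →
      ∃ (Z : Finset N) (reg : N → N) (o : N → V), Inv A T d Z reg o ∧
        ∀ x ∈ A, ∀ s ∈ T x, Cov A T Z s := by
  classical
  intro n
  induction n with
  | zero =>
    intro Z reg o hI hU
    obtain ⟨U, hUA, hUc, hU⟩ := hU
    refine ⟨Z, reg, o, hI, ?_⟩
    intro x hx s hs
    by_contra hcon
    have h1 := hU x hx ⟨s, hs, hcon⟩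
    have h2 : U = ∅ := Finset.card_eq_zero.1 (by omega)
    rw [h2] at h1
    simp at h1
  | succ n ih =>
    intro Z reg o hI hU
    obtain ⟨U, hUA, hUc, hU⟩ := hU
    by_cases hall : ∀ x ∈ A, ∀ s ∈ T x, Cov A T Z s
    · exact ⟨Z, reg, o, hI, hall⟩
    · push Not at hall
      obtain ⟨x0, hx0, s0, hs0, hc0⟩ := hall
      have hne : (A.filter (fun x => ∃ s ∈ T x, ¬ Cov A T Z s)).Nonempty :=
        ⟨x0, Finset.mem_filter.2 ⟨hx0, s0, hs0, hc0⟩⟩
      obtain ⟨x, hx, hmin⟩ := Finset.exists_min_image _ d hne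
      obtain ⟨hxA, z, hz, hzc⟩ := Finset.mem_filter.1 hx
      have hzZ : z ∉ Z := fun h => hzc ⟨z, h, x, hxA, hz, hz⟩
      have hcov' : ∀ s, Cov A T (insert z Z) s → ¬ Cov A T Z s →
          ∃ y ∈ A, s ∈ T y ∧ z ∈ T y := by
        intro s hs hns
        obtain ⟨z', hz', y, hy, h1, h2⟩ := hs
        rcases Finset.mem_insert.1 hz' with h3 | h3
        · rw [h3] at h2
          exact ⟨y, hy, h1, h2⟩
        · exact absurd ⟨z', h3, y, hy, h1, h2⟩ hns
      have hcovm : ∀ s, Cov A T Z s → Cov A T (insert z Z) s := by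
        intro s hs
        obtain ⟨z', hz', y, hy, h1, h2⟩ := hs
        exact ⟨z', Finset.mem_insert_of_mem hz', y, hy, h1, h2⟩
      refine ih (insert z Z) (fun s => if Cov A T Z s then reg s else z)
        (Function.update o z x) ?_ ?_
      · refine ⟨?_, ?_, ?_, ?_⟩
        · intro z' hz'
          by_cases h : z' = z
          · rw [h, Function.update_self]
            exact ⟨hxA, hz⟩
          · rw [Function.update_of_ne h]
            rcases Finset.mem_insert.1 hz' with h3 | h3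
            · exact absurd h3 h
            · exact hI.org z' h3
        · intro y hy z1 hz1 z2 hz2 h1 h2
          rcases Finset.mem_insert.1 hz1 with h3 | h3
          · rcases Finset.mem_insert.1 hz2 with h4 | h4
            · rw [h3, h4]
            · exfalso
              rw [h3] at h1
              exact hzc ⟨z2, h4, y, hy, h1, h2⟩
          · rcases Finset.mem_insert.1 hz2 with h4 | h4
            · exfalso
              rw [h4] at h2
              exact hzc ⟨z1, h3, y, hy, h2, h1⟩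
            · exact hI.anti y hy z1 h3 z2 h4 h1 h2
        · intro s hs
          by_cases hcs : Cov A T Z s
          · simp only [hcs, if_true]
            obtain ⟨h1, h2⟩ := hI.regm s hcs
            exact ⟨Finset.mem_insert_of_mem h1, h2⟩
          · simp only [hcs, if_false]
            exact ⟨Finset.mem_insert_self _ _, hcov' s hs hcs⟩
        · intro s hs x' hx' hsx'
          by_cases hcs : Cov A T Z s
          · simp only [hcs, if_true]
            have h1 := (hI.regm s hcs).1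
            have h2 : reg s ≠ z := fun h => hzZ (h ▸ h1)
            rw [Function.update_of_ne h2]
            exact hI.dep s hcs x' hx' hsx'
          · simp only [hcs, if_false]
            rw [Function.update_self]
            exact hmin x' (Finset.mem_filter.2 ⟨hx', s, hsx', hcs⟩)
      · have hxU : x ∈ U := hU x hxA ⟨z, hz, hzc⟩
        refine ⟨U.erase x, (Finset.erase_subset _ _).trans hUA, ?_, ?_⟩
        · rw [Finset.card_erase_of_mem hxU]
          omega
        · intro x' hx' hs'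
          obtain ⟨s, hs, hns⟩ := hs'
          refine Finset.mem_erase.2 ⟨?_, hU x' hx' ⟨s, hs, fun h => hns (hcovm s h)⟩⟩
          intro h
          rw [h] at hs
          exact hns ⟨z, Finset.mem_insert_self _ _, x, hxA, hs, hz⟩

theorem phi2 : S_PHI := by
  classical
  intro V N _ _ par rk A T n hAne hconn hn
  have htop : ∀ x, ∃ a, x ∈ A → a ∈ T x ∧ ∀ z ∈ T x, z ≠ a → par z ∈ T x ∧ rk (par z) < rk z := by
    intro x
    by_cases hx : x ∈ A
    · obtain ⟨a, h1, h2⟩ := hconn x hx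
      exact ⟨a, fun _ => ⟨h1, h2⟩⟩
    · obtain ⟨x0, hx0⟩ := hAne
      obtain ⟨a, -, -⟩ := hconn x0 hx0
      exact ⟨a, fun hh => absurd hh hx⟩
  choose top htop using htop
  obtain ⟨x0, hx0⟩ := hAne
  obtain ⟨Z, reg, o, hI, hcov⟩ := centres A T (fun x => rk (top x)) A.card ∅ (fun s => s)
    (fun _ => x0)
    (by
      refine ⟨?_, ?_, ?_, ?_⟩
      · intro z hz; simp at hz
      · intro y hy z hz; simp at hz
      · rintro s ⟨z, hz, -⟩; simp at hz
      · rintro s ⟨z, hz, -⟩; simp at hz)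
    ⟨A, Finset.Subset.refl _, le_rfl, fun x hx _ => hx⟩
  -- claim (3)
  have claim : ∀ x ∈ A, ∀ s ∈ T x, ∃ y ∈ A, top x ∈ T y ∧ reg s ∈ T y := by
    intro x hx s hs
    have hc := hcov x hx s hs
    obtain ⟨h1, y, hy, hsy, hzy⟩ := hI.regm s hc
    have hd := hI.dep s hc x hx hs
    obtain ⟨ho, hzo⟩ := hI.org _ h1
    by_cases hty : top x ∈ T y
    · exact ⟨y, hy, hty, hzy⟩
    · have hyx : top y ∈ T x := by
        rcases top_mem (htop x hx).2 (htop y hy).2 hs hsy with h | h
        · exact absurd h hty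
        · exact h
      have hU : ∀ z ∈ T x ∪ T y, z ≠ top x → par z ∈ T x ∪ T y ∧ rk (par z) < rk z := by
        intro z hz hzt
        by_cases hzx : z ∈ T x
        · obtain ⟨h3, h4⟩ := (htop x hx).2 z hzx hzt
          exact ⟨Finset.mem_union_left _ h3, h4⟩
        · have hzy' : z ∈ T y := by
            rcases Finset.mem_union.1 hz with h | h
            · exact absurd h hzx
            · exact h
          have hzt' : z ≠ top y := fun h => hzx (h ▸ hyx)
          obtain ⟨h3, h4⟩ := (htop y hy).2 z hzy' hzt'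
          exact ⟨Finset.mem_union_right _ h3, h4⟩
      refine ⟨o (reg s), ho, ?_, hzo⟩
      rcases top_mem hU (htop _ ho).2 (Finset.mem_union_right _ hzy) hzo with h | h
      · exact h
      · have h5 := top_eq hU h hd
        rw [← h5]
        exact (htop _ ho).1
  -- few regions
  have few : ∀ x ∈ A, ((T x).image reg).card ≤ n := by
    intro x hx
    have hch : ∀ r, ∃ y, r ∈ (T x).image reg → y ∈ A ∧ top x ∈ T y ∧ r ∈ T y ∧ r ∈ Z := by
      intro r
      by_cases hr : r ∈ (T x).image reg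
      · obtain ⟨s, hs, hsr⟩ := Finset.mem_image.1 hr
        obtain ⟨y, hy, h1, h2⟩ := claim x hx s hs
        refine ⟨y, fun _ => ⟨hy, h1, hsr ▸ h2, ?_⟩⟩
        rw [← hsr]
        exact (hI.regm s (hcov x hx s hs)).1
      · exact ⟨x, fun h => absurd h hr⟩
    choose y hy using hch
    have hinj : Set.InjOn y ((T x).image reg : Set N) := by
      intro r hr r' hr' hrr
      obtain ⟨h1, h2, h3, h4⟩ := hy r hr
      obtain ⟨h1', h2', h3', h4'⟩ := hy r' hr'
      refine hI.anti (y r) h1 r h4 r' h4' h3 ?_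
      rw [hrr]; exact h3'
    have hcard : (((T x).image reg).image y).card = ((T x).image reg).card :=
      Finset.card_image_of_injOn hinj
    rw [← hcard]
    apply hn (top x)
    · intro v hv
      obtain ⟨r, hr, rfl⟩ := Finset.mem_image.1 hv
      exact (hy r hr).1
    · intro v hv
      obtain ⟨r, hr, rfl⟩ := Finset.mem_image.1 hv
      exact (hy r hr).2.1
    · intro v hv
      obtain ⟨r, hr, rfl⟩ := Finset.mem_image.1 hv
      refine ⟨r, (hy r hr).2.2.1, ?_⟩
      intro v' hv' hne hmem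
      obtain ⟨r', hr', rfl⟩ := Finset.mem_image.1 hv'
      have := hI.anti (y r') (hy r' hr').1 r (hy r hr).2.2.2 r' (hy r' hr').2.2.2 hmem
        (hy r' hr').2.2.1
      exact hne (by rw [this])
  -- the family of a centre
  have hFz : ∀ z : N, ∃ F : Finset V, F ⊆ A.filter (fun y => z ∈ T y) ∧ Irr T F ∧
      ∀ y ∈ A.filter (fun y => z ∈ T y), ∀ s ∈ T y, ∃ y' ∈ F, s ∈ T y' :=
    fun z => exists_irr _ T
  choose F hF1 hF2 hF3 using hFz
  have hFc : ∀ z, (F z).card ≤ n := by
    intro z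
    apply hn z (F z)
    · exact (hF1 z).trans (Finset.filter_subset _ _)
    · intro y hy
      exact (Finset.mem_filter.1 (hF1 z hy)).2
    · exact hF2 z
  have hphi : ∀ s : N, ∃ y : V, (∃ x ∈ A, s ∈ T x) → y ∈ F (reg s) ∧ s ∈ T y := by
    intro s
    by_cases h : ∃ x ∈ A, s ∈ T x
    · obtain ⟨x, hx, hs⟩ := h
      obtain ⟨-, y, hy, h1, h2⟩ := hI.regm s (hcov x hx s hs)
      obtain ⟨y', h3, h4⟩ := hF3 (reg s) y (Finset.mem_filter.2 ⟨hy, h2⟩) s h1
      exact ⟨y', fun _ => ⟨h3, h4⟩⟩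
    · exact ⟨x0, fun hh => absurd hh h⟩
  choose phi hphi using hphi
  refine ⟨phi, ?_, ?_⟩
  · intro x hx t ht
    obtain ⟨h1, h2⟩ := hphi t ⟨x, hx, ht⟩
    exact ⟨(Finset.mem_filter.1 (hF1 _ h1)).1, h2⟩
  · intro x hx
    have hsub : (T x).image phi ⊆ ((T x).image reg).biUnion F := by
      intro v hv
      obtain ⟨t, ht, rfl⟩ := Finset.mem_image.1 hv
      exact Finset.mem_biUnion.2 ⟨reg t, Finset.mem_image_of_mem _ ht, (hphi t ⟨x, hx, ht⟩).1⟩
    calc ((T x).image phi).card ≤ (((T x).image reg).biUnion F).card :=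
          Finset.card_le_card hsub
      _ ≤ ((T x).image reg).card * n := Finset.card_biUnion_le_card_mul _ _ _ (fun z _ => hFc z)
      _ ≤ n * n := Nat.mul_le_mul_right _ (few x hx)

end phi

end Pool.Agent.T6.H97.TM
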