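import Pool.Agent.T6.H97.TM.Defs

/-! Module PIV: the non-neighbours meeting a vertex of a largest clique. -/

set_option autoImplicit false

namespace Pool.Agent.T6.H97.TM

open Finset

/-- Module PIV. -/
theorem piv : S_PIV := by
  classical
  intro V N _ _ par rk G w k f A T h hf K m hK hm B hBA hB
  obtain ⟨hKA, hKc, hKw⟩ := hK
  set B0 : Finset V := B.filter (fun x => ∀ u ∈ K.erase m, G.Adj x u) with hB0
  have hcov : B ⊆ B0 ∪ (K.erase m).biUnion (fun u => B.filter (fun x => ¬ G.Adj x u)) := by
    intro x hx
    by_cases hxB : ∀ u ∈ K.erase m, G.Adj x u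
    · exact Finset.mem_union_left _ (Finset.mem_filter.2 ⟨hx, hxB⟩)
    · push Not at hxB
      obtain ⟨u, hu, hxu⟩ := hxB
      exact Finset.mem_union_right _
        (Finset.mem_biUnion.2 ⟨u, hu, Finset.mem_filter.2 ⟨hx, hxu⟩⟩)
  have hBcol : Col G B0 1 := by
    apply Col.indep
    intro x hx y hy hxy
    have hx' := Finset.mem_filter.1 hx
    have hy' := Finset.mem_filter.1 hy
    have hyK : y ∉ K.erase m := fun hyK => G.irrefl (hy'.2 y hyK)
    have hxK : x ∉ insert y (K.erase m) := by
      intro hh
      rcases Finset.mem_insert.1 hh with h1 | h1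
      · exact G.ne_of_adj hxy h1
      · exact G.irrefl (hx'.2 x h1)
    have hcard : (insert x (insert y (K.erase m))).card = w + 2 := by
      rw [Finset.card_insert_of_notMem hxK, Finset.card_insert_of_notMem hyK,
        Finset.card_erase_of_mem hm, hKw]
      omega
    have hsub : insert x (insert y (K.erase m)) ⊆ A := by
      intro z hz
      rcases Finset.mem_insert.1 hz with h1 | h1
      · rw [h1]; exact hBA hx'.1
      · rcases Finset.mem_insert.1 h1 with h2 | h2
        · rw [h2]; exact hBA hy'.1
        · exact hKA (Finset.mem_of_mem_erase h2)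
    have hcl : G.IsClique ((insert x (insert y (K.erase m)) : Finset V) : Set V) := by
      rw [Finset.coe_insert, Finset.coe_insert, SimpleGraph.isClique_insert,
        SimpleGraph.isClique_insert]
      refine ⟨⟨?_, ?_⟩, ?_⟩
      · exact hKc.subset (by intro z hz; exact Finset.mem_of_mem_erase (Finset.mem_coe.1 hz))
      · intro z hz _
        exact hy'.2 z (Finset.mem_coe.1 hz)
      · intro z hz _
        rcases hz with h1 | h1
        · rw [h1]; exact hxy
        · exact hx'.2 z (Finset.mem_coe.1 h1)
    have := h.cl _ hsub hcl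
    omega
  have hmA : m ∈ A := hKA hm
  have hAcol : ∀ u ∈ K.erase m, Col G (B.filter (fun x => ¬ G.Adj x u)) f := by
    intro u hu
    have huK : u ∈ K := Finset.mem_of_mem_erase hu
    have hum : u ≠ m := Finset.ne_of_mem_erase hu
    have hadj : G.Adj u m := hKc (Finset.mem_coe.2 huK) (Finset.mem_coe.2 hm) hum
    have huA : u ∈ A := hKA huK
    refine hf _ (fun x => T x ∩ T m) ⟨?_, ?_, ?_, ?_⟩
    · intro v hv
      have hvB := (Finset.mem_filter.1 hv).1
      exact Conn.inter (h.conn v (hBA hvB)) (h.conn m hmA) (hB v hvB).1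
    · intro x hx y hy hxy
      have hxB := (Finset.mem_filter.1 hx).1
      have hyB := (Finset.mem_filter.1 hy).1
      obtain ⟨z, hz1, hz2, hz3⟩ := helly (h.conn x (hBA hxB)) (h.conn y (hBA hyB)) (h.conn m hmA)
        (h.adj x (hBA hxB) y (hBA hyB) hxy) (hB y hyB).1 (hB x hxB).1
      exact ⟨z, Finset.mem_inter.2 ⟨Finset.mem_inter.2 ⟨hz1, hz3⟩,
        Finset.mem_inter.2 ⟨hz2, hz3⟩⟩⟩
    · intro i S hS hS1 hS2
      rcases S.eq_empty_or_nonempty with hSe | ⟨v0, hv0⟩
      · rw [hSe, Finset.card_empty]
        exact Nat.zero_le _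
      have him : i ∈ T m := by
        obtain ⟨u', -, -, h1⟩ := hS2 v0 hv0
        rcases h1 with h1 | h1
        · exact (Finset.mem_inter.1 h1).2
        · exact (Finset.mem_inter.1 h1).2
      have hSB : ∀ x ∈ S, x ∈ B ∧ ¬ G.Adj x u := fun x hx => Finset.mem_filter.1 (hS hx)
      have hnm : ∀ x ∈ S, ¬ G.Adj x m := fun x hx => (hB x (hSB x hx).1).2
      have hnu : ∀ x ∈ S, ¬ G.Adj x u := fun x hx => (hSB x hx).2
      have huS : u ∉ S := fun hh => hnm u hh hadj
      have hmS : m ∉ insert u S := by
        intro hh
        rcases Finset.mem_insert.1 hh with h1 | h1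
        · exact hum h1.symm
        · exact hnu m h1 hadj.symm
      have hcard : (insert m (insert u S)).card = S.card + 2 := by
        rw [Finset.card_insert_of_notMem hmS, Finset.card_insert_of_notMem huS]
      have hsub : insert m (insert u S) ⊆ A := by
        intro z hz
        rcases Finset.mem_insert.1 hz with h1 | h1
        · rw [h1]; exact hmA
        · rcases Finset.mem_insert.1 h1 with h2 | h2
          · rw [h2]; exact huA
          · exact hBA (hSB z h2).1
      have hmu := h.mu i (insert m (insert u S)) hsub ?_ ?_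
      · rw [hcard] at hmu
        omega
      · intro v hv
        rcases Finset.mem_insert.1 hv with h1 | h1
        · subst h1
          refine ⟨u, ⟨Finset.mem_insert_of_mem (Finset.mem_insert_self _ _), hadj.symm⟩, ?_⟩
          rintro y ⟨hy1, hy2⟩
          rcases Finset.mem_insert.1 hy1 with h3 | h3
          · rw [h3] at hy2
            exact absurd hy2 (G.irrefl)
          · rcases Finset.mem_insert.1 h3 with h4 | h4
            · exact h4
            · exact absurd hy2.symm (hnm y h4)
        · rcases Finset.mem_insert.1 h1 with h2 | h2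
          · subst h2
            refine ⟨m, ⟨Finset.mem_insert_self _ _, hadj⟩, ?_⟩
            rintro y ⟨hy1, hy2⟩
            rcases Finset.mem_insert.1 hy1 with h3 | h3
            · exact h3
            · rcases Finset.mem_insert.1 h3 with h4 | h4
              · rw [h4] at hy2
                exact absurd hy2 (G.irrefl)
              · exact absurd hy2.symm (hnu y h4)
          · obtain ⟨u', ⟨hu1, hu2⟩, hu3⟩ := hS1 v h2
            refine ⟨u', ⟨Finset.mem_insert_of_mem (Finset.mem_insert_of_mem hu1), hu2⟩, ?_⟩
            rintro y ⟨hy1, hy2⟩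
            rcases Finset.mem_insert.1 hy1 with h3 | h3
            · rw [h3] at hy2
              exact absurd hy2 (hnm v h2)
            · rcases Finset.mem_insert.1 h3 with h4 | h4
              · rw [h4] at hy2
                exact absurd hy2 (hnu v h2)
              · exact hu3 y ⟨h4, hy2⟩
      · intro v hv
        rcases Finset.mem_insert.1 hv with h1 | h1
        · subst h1
          exact ⟨u, Finset.mem_insert_of_mem (Finset.mem_insert_self _ _), hadj.symm,
            Or.inl him⟩
        · rcases Finset.mem_insert.1 h1 with h2 | h2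
          · subst h2
            exact ⟨m, Finset.mem_insert_self _ _, hadj, Or.inr him⟩
          · obtain ⟨u', hu1, hu2, hu3⟩ := hS2 v h2
            refine ⟨u', Finset.mem_insert_of_mem (Finset.mem_insert_of_mem hu1), hu2, ?_⟩
            rcases hu3 with h3 | h3
            · exact Or.inl (Finset.mem_inter.1 h3).1
            · exact Or.inr (Finset.mem_inter.1 h3).1
    · intro s hs hsc
      exact h.cl s (fun x hx => hBA (Finset.mem_filter.1 (hs hx)).1) hsc
  have hall := hBcol.union (Col.biUnion (K.erase m) _ f hAcol)
  refine hall.mono hcov ?_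
  rw [Finset.card_erase_of_mem hm, hKw, Nat.add_sub_cancel]

end Pool.Agent.T6.H97.TM
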