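import Pool.Agent.T6.H97.TM.Defs

set_option autoImplicit false

namespace Pool.Agent.T6.H97.TM

open Finset

/-- TM.RAM. -/
theorem ram_aux {V : Type} [DecidableEq V] (G : SimpleGraph V) (w : ℕ) : ∀ (k : ℕ) (F : Finset V),
    (∀ s : Finset V, s ⊆ F → G.IsClique (s : Set V) → s.card ≤ w) →
    (∀ s : Finset V, s ⊆ F → (∀ x ∈ s, ∀ y ∈ s, ¬ G.Adj x y) → s.card ≤ k) →
    F.card + 1 ≤ (w + 1) ^ k := by
  classical
  intro k
  induction k with
  | zero =>
    intro F _ hI
    have hF : F = ∅ := by
      by_contra hne
      obtain ⟨x, hx⟩ := Finset.nonempty_iff_ne_empty.2 hne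
      have := hI {x} (Finset.singleton_subset_iff.2 hx) (by
        intro a ha b hb
        rw [Finset.mem_singleton] at ha hb
        rw [ha, hb]
        exact G.loopless.irrefl x)
      simp at this
    simp [hF]
  | succ k ih =>
    intro F hC hI
    -- a largest clique
    obtain ⟨K, hK, hKmax⟩ := Finset.exists_max_image
      (F.powerset.filter (fun s : Finset V => G.IsClique (s : Set V))) (fun s : Finset V => s.card)
      ⟨∅, by simp⟩
    rw [Finset.mem_filter, Finset.mem_powerset] at hK
    obtain ⟨hKF, hKc⟩ := hK
    have hKw : K.card ≤ w := hC K hKF hKc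
    let Nn : V → Finset V := fun u => F.filter (fun v => v ≠ u ∧ ¬ G.Adj v u)
    have hcover : F ⊆ K ∪ K.biUnion Nn := by
      intro v hv
      by_cases hvK : v ∈ K
      · exact Finset.mem_union_left _ hvK
      · refine Finset.mem_union_right _ ?_
        by_contra hcon
        have hall : ∀ u ∈ K, G.Adj v u := by
          intro u hu
          by_contra hna
          apply hcon
          rw [Finset.mem_biUnion]
          refine ⟨u, hu, ?_⟩
          simp only [Nn, Finset.mem_filter]
          exact ⟨hv, fun h => hvK (h ▸ hu), hna⟩
        have hcl : G.IsClique ((insert v K : Finset V) : Set V) := by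
          rw [Finset.coe_insert, SimpleGraph.isClique_insert]
          exact ⟨hKc, fun b hb _ => hall b hb⟩
        have := hKmax (insert v K) (by
          rw [Finset.mem_filter, Finset.mem_powerset]
          exact ⟨Finset.insert_subset hv hKF, hcl⟩)
        rw [Finset.card_insert_of_notMem hvK] at this
        omega
    have hN : ∀ u ∈ K, (Nn u).card ≤ (w + 1) ^ k - 1 := by
      intro u hu
      have h1 := ih (Nn u)
        (fun s hs hc => hC s (hs.trans (Finset.filter_subset _ _)) hc)
        (by
          intro s hs hi
          have hus : u ∉ s := by
            intro h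
            have := hs h
            simp only [Nn, Finset.mem_filter] at this
            exact this.2.1 rfl
          have hnadj : ∀ x ∈ s, ¬ G.Adj x u := by
            intro x hx
            have := hs hx
            simp only [Nn, Finset.mem_filter] at this
            exact this.2.2
          have h2 := hI (insert u s)
            (Finset.insert_subset (hKF hu) (hs.trans (Finset.filter_subset _ _)))
            (by
              intro x hx y hy
              rcases Finset.mem_insert.1 hx with hx1 | hx1
              · rcases Finset.mem_insert.1 hy with hy1 | hy1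
                · rw [hx1, hy1]
                  exact G.loopless.irrefl _
                · rw [hx1]
                  exact fun h => hnadj y hy1 h.symm
              · rcases Finset.mem_insert.1 hy with hy1 | hy1
                · rw [hy1]
                  exact hnadj x hx1
                · exact hi x hx1 y hy1)
          rw [Finset.card_insert_of_notMem hus] at h2
          omega)
      omega
    have hsum : (K.biUnion Nn).card ≤ K.card * ((w + 1) ^ k - 1) :=
      Finset.card_biUnion_le_card_mul K Nn _ hN
    have h3 : F.card ≤ K.card + K.card * ((w + 1) ^ k - 1) :=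
      (Finset.card_le_card hcover).trans ((Finset.card_union_le _ _).trans (by omega))
    have hpos : 1 ≤ (w + 1) ^ k := Nat.one_le_pow _ _ (by omega)
    obtain ⟨a, ha⟩ : ∃ a, (w + 1) ^ k = a + 1 := ⟨(w + 1) ^ k - 1, by omega⟩
    rw [pow_succ, ha]
    rw [ha] at h3
    have h4 : K.card * (a + 1 - 1) ≤ w * a := by
      have : a + 1 - 1 = a := by omega
      rw [this]
      exact Nat.mul_le_mul_right _ hKw
    nlinarith

theorem ram : S_RAM := by
  intro V _ G w k F hC hI
  have := ram_aux G w k F hC hI
  omega

end Pool.Agent.T6.H97.TM
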