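import Pool.Agent.T6.H97.TM.Defs

/-! Project TM (MP_41f3d4_co), module RED: minimal models exist (helper61, after helper76). -/

set_option autoImplicit false

namespace Pool.Agent.T6.H97.TM

open Finset

theorem red : S_RED := by
  intro V N _ _ par rk G w k A T h
  classical
  induction hn : ∑ v ∈ A, (T v).card using Nat.strong_induction_on generalizing T with
  | _ n ih =>
    by_cases hred : RedC par rk G A T
    · exact ⟨T, h, hred⟩
    · unfold RedC at hred
      push Not at hred
      obtain ⟨x, hx, W, hWT, hWc, hq, hns⟩ := hred
      have hTle : ∀ v, Function.update T x W v ⊆ T v := by
        intro v
        by_cases hvx : v = x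
        · rw [hvx, Function.update_self]; exact hWT
        · rw [Function.update_of_ne hvx]
      refine ih (∑ v ∈ A, (Function.update T x W v).card) ?_ (Function.update T x W) ?_ rfl
      · rw [← hn]
        apply Finset.sum_lt_sum
        · intro v _
          exact Finset.card_le_card (hTle v)
        · refine ⟨x, hx, ?_⟩
          rw [Function.update_self]
          apply Finset.card_lt_card
          exact ⟨hWT, hns⟩
      · refine ⟨?_, ?_, ?_, h.cl⟩
        · intro v hv
          by_cases hvx : v = x
          · rw [hvx, Function.update_self]
            exact hWc
          · rw [Function.update_of_ne hvx]
            exact h.conn v hv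
        · intro u hu v hv huv
          by_cases hux : u = x
          · have hvx : v ≠ x := fun e => G.ne_of_adj huv (hux.trans e.symm)
            rw [hux, Function.update_self, Function.update_of_ne hvx]
            rw [hux] at huv
            exact hq v hv huv
          · by_cases hvx : v = x
            · rw [hvx, Function.update_self, Function.update_of_ne hux, Finset.inter_comm]
              rw [hvx] at huv
              exact hq u hu huv.symm
            · rw [Function.update_of_ne hux, Function.update_of_ne hvx]
              exact h.adj u hu v hv huv
        · intro i S hS h1 h2
          apply h.mu i S hS h1
          intro v hv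
          obtain ⟨u, hu, huv, hor⟩ := h2 v hv
          refine ⟨u, hu, huv, ?_⟩
          rcases hor with h3 | h3
          · exact Or.inl (hTle v h3)
          · exact Or.inr (hTle u h3)

end Pool.Agent.T6.H97.TM
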