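import Mathlib

/-! Project TM (MP_41f3d4_co, frozen S08375): induced matching treewidth.
The colouring lemmas, the parent map representation of subtrees (`Conn`), Helly, `noC4`,
`exists_last` and `conn_of_tree` are helper76's (copied from TreeMuOne). -/

set_option autoImplicit false
set_option linter.unusedSectionVars false

namespace Pool.Agent.T6.H97.TM

open Finset

section colours

variable {V : Type} [DecidableEq V] (G : SimpleGraph V)

/-- `A` can be properly coloured with colours below `m`. -/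
def Col (A : Finset V) (m : ℕ) : Prop :=
  ∃ c : V → ℕ, (∀ v ∈ A, c v < m) ∧ ∀ u ∈ A, ∀ v ∈ A, G.Adj u v → c u ≠ c v

variable {G}

theorem Col.mono {A B : Finset V} {m n : ℕ} (h : Col G A m) (hAB : B ⊆ A) (hmn : m ≤ n) :
    Col G B n := by
  obtain ⟨c, h1, h2⟩ := h
  exact ⟨c, fun v hv => lt_of_lt_of_le (h1 v (hAB hv)) hmn,
    fun u hu v hv => h2 u (hAB hu) v (hAB hv)⟩

theorem Col.union {A B : Finset V} {m n : ℕ} (hA : Col G A m) (hB : Col G B n) :
    Col G (A ∪ B) (m + n) := by
  classical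
  obtain ⟨a, a1, a2⟩ := hA
  obtain ⟨b, b1, b2⟩ := hB
  refine ⟨fun v => if v ∈ A then a v else m + b v, ?_, ?_⟩
  · intro v hv
    by_cases hvA : v ∈ A
    · simp only [hvA, if_true]
      have := a1 v hvA
      omega
    · simp only [hvA, if_false]
      have hvB : v ∈ B := by
        rcases Finset.mem_union.1 hv with h | h
        · exact absurd h hvA
        · exact h
      have := b1 v hvB
      omega
  · intro u hu v hv huv
    by_cases hvA : v ∈ A <;> by_cases huA : u ∈ A
    · simp only [hvA, huA, if_true]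
      exact a2 u huA v hvA huv
    · simp only [hvA, huA, if_true, if_false]
      have := a1 v hvA
      omega
    · simp only [hvA, huA, if_true, if_false]
      have := a1 u huA
      omega
    · simp only [hvA, huA, if_false]
      have hvB : v ∈ B := by
        rcases Finset.mem_union.1 hv with h | h
        · exact absurd h hvA
        · exact h
      have huB : u ∈ B := by
        rcases Finset.mem_union.1 hu with h | h
        · exact absurd h huA
        · exact h
      have := b2 u huB v hvB huv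
      omega

theorem Col.biUnion (K : Finset V) (A : V → Finset V) (m : ℕ)
    (h : ∀ u ∈ K, Col G (A u) m) : Col G (K.biUnion A) (K.card * m) := by
  classical
  induction K using Finset.induction_on with
  | empty => exact ⟨fun _ => 0, by simp, by simp⟩
  | insert a s ha ih =>
    rw [Finset.biUnion_insert, Finset.card_insert_of_notMem ha]
    have h1 := h a (Finset.mem_insert_self a s)
    have h2 := ih (fun u hu => h u (Finset.mem_insert_of_mem hu))
    exact (h1.union h2).mono (Finset.Subset.refl _) (by ring_nf; omega)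

theorem Col.indep {A : Finset V} (h : ∀ u ∈ A, ∀ v ∈ A, ¬ G.Adj u v) : Col G A 1 :=
  ⟨fun _ => 0, fun _ _ => by norm_num, fun u hu v hv huv => absurd huv (h u hu v hv)⟩

theorem Col.insertIso {S : Finset V} {m : ℕ} (hm : 1 ≤ m) (h : Col G S m) {v : V}
    (hv : ∀ x ∈ S, ¬ G.Adj x v) : Col G (insert v S) m := by
  classical
  obtain ⟨c, h1, h2⟩ := h
  refine ⟨Function.update c v 0, ?_, ?_⟩
  · intro x hx
    by_cases hxv : x = v
    · rw [hxv, Function.update_self]; omega
    · rw [Function.update_of_ne hxv]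
      rcases Finset.mem_insert.1 hx with h3 | h3
      · exact absurd h3 hxv
      · exact h1 x h3
  · intro x hx y hy hxy
    by_cases hxv : x = v
    · by_cases hyv : y = v
      · exact absurd (hxv.trans hyv.symm) (G.ne_of_adj hxy)
      · rcases Finset.mem_insert.1 hy with h3 | h3
        · exact absurd h3 hyv
        · rw [hxv] at hxy
          exact absurd hxy.symm (hv y h3)
    · rcases Finset.mem_insert.1 hx with h3 | h3
      · exact absurd h3 hxv
      · by_cases hyv : y = v
        · rw [hyv] at hxy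
          exact absurd hxy (hv x h3)
        · rcases Finset.mem_insert.1 hy with h4 | h4
          · exact absurd h4 hyv
          · rw [Function.update_of_ne hxv, Function.update_of_ne hyv]
            exact h2 x h3 y h4 hxy

end colours

section conn

variable {N : Type} [DecidableEq N] (par : N → N) (rk : N → ℕ)

/-- `A` is closed under parents, except at its top. -/
def Conn (A : Finset N) : Prop :=
  ∃ a ∈ A, ∀ z ∈ A, z ≠ a → par z ∈ A ∧ rk (par z) < rk z

variable {par rk}

theorem top_le {A : Finset N} {a : N} (h : ∀ z ∈ A, z ≠ a → par z ∈ A ∧ rk (par z) < rk z)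
    {z : N} (hz : z ∈ A) : rk a ≤ rk z := by
  induction hn : rk z using Nat.strong_induction_on generalizing z with
  | _ n ih =>
    by_cases hza : z = a
    · rw [hza] at hn; omega
    · obtain ⟨h1, h2⟩ := h z hz hza
      have := ih (rk (par z)) (by omega) h1 rfl
      omega

theorem top_mem {A B : Finset N} {a b : N}
    (hA : ∀ z ∈ A, z ≠ a → par z ∈ A ∧ rk (par z) < rk z)
    (hB : ∀ z ∈ B, z ≠ b → par z ∈ B ∧ rk (par z) < rk z)
    {z : N} (hzA : z ∈ A) (hzB : z ∈ B) : a ∈ B ∨ b ∈ A := by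
  induction hn : rk z using Nat.strong_induction_on generalizing z with
  | _ n ih =>
    by_cases hza : z = a
    · left; rw [← hza]; exact hzB
    · by_cases hzb : z = b
      · right; rw [← hzb]; exact hzA
      · obtain ⟨h1, h2⟩ := hA z hzA hza
        obtain ⟨h3, h4⟩ := hB z hzB hzb
        exact ih (rk (par z)) (by omega) h1 h3 rfl

/-- equal ranks of two tops, one in the other set -/
theorem top_eq {B : Finset N} {a b : N}
    (hB : ∀ z ∈ B, z ≠ b → par z ∈ B ∧ rk (par z) < rk z)
    (haB : a ∈ B) (h : rk a ≤ rk b) : a = b := by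
  by_contra hab
  obtain ⟨h1, h2⟩ := hB a haB hab
  have := top_le hB h1
  omega

theorem Conn.inter {A B : Finset N} (hA : Conn par rk A) (hB : Conn par rk B)
    (h : (A ∩ B).Nonempty) : Conn par rk (A ∩ B) := by
  have key : ∀ A B : Finset N, ∀ a b : N, a ∈ A → b ∈ B →
      (∀ z ∈ A, z ≠ a → par z ∈ A ∧ rk (par z) < rk z) →
      (∀ z ∈ B, z ≠ b → par z ∈ B ∧ rk (par z) < rk z) → a ∈ B → Conn par rk (A ∩ B) := by
    intro A B a b haA hbB hA' hB' haB
    refine ⟨a, Finset.mem_inter.2 ⟨haA, haB⟩, ?_⟩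
    intro z hz hza
    obtain ⟨hzA, hzB⟩ := Finset.mem_inter.1 hz
    obtain ⟨h1, h2⟩ := hA' z hzA hza
    refine ⟨Finset.mem_inter.2 ⟨h1, ?_⟩, h2⟩
    by_cases hzb : z = b
    · exfalso
      have h3 := top_le hB' haB
      have h4 := top_le hA' h1
      rw [hzb] at h2 h4
      omega
    · exact (hB' z hzB hzb).1
  obtain ⟨a, haA, hA'⟩ := hA
  obtain ⟨b, hbB, hB'⟩ := hB
  obtain ⟨z, hz⟩ := h
  obtain ⟨hzA, hzB⟩ := Finset.mem_inter.1 hz
  rcases top_mem hA' hB' hzA hzB with h1 | h1
  · exact key A B a b haA hbB hA' hB' h1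
  · rw [Finset.inter_comm]
    exact key B A b a hbB haA hB' hA' h1

theorem Conn.union {A B : Finset N} (hA : Conn par rk A) (hB : Conn par rk B)
    (h : (A ∩ B).Nonempty) : Conn par rk (A ∪ B) := by
  have key : ∀ A B : Finset N, ∀ a b : N, b ∈ B →
      (∀ z ∈ A, z ≠ a → par z ∈ A ∧ rk (par z) < rk z) →
      (∀ z ∈ B, z ≠ b → par z ∈ B ∧ rk (par z) < rk z) → a ∈ B → Conn par rk (A ∪ B) := by
    intro A B a b hbB hA' hB' haB
    refine ⟨b, Finset.mem_union_right _ hbB, ?_⟩
    intro z hz hzb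
    by_cases hzB : z ∈ B
    · obtain ⟨h1, h2⟩ := hB' z hzB hzb
      exact ⟨Finset.mem_union_right _ h1, h2⟩
    · have hzA : z ∈ A := by
        rcases Finset.mem_union.1 hz with h1 | h1
        · exact h1
        · exact absurd h1 hzB
      have hza : z ≠ a := fun hh => hzB (hh ▸ haB)
      obtain ⟨h1, h2⟩ := hA' z hzA hza
      exact ⟨Finset.mem_union_left _ h1, h2⟩
  obtain ⟨a, haA, hA'⟩ := hA
  obtain ⟨b, hbB, hB'⟩ := hB
  obtain ⟨z, hz⟩ := h
  obtain ⟨hzA, hzB⟩ := Finset.mem_inter.1 hz
  rcases top_mem hA' hB' hzA hzB with h1 | h1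
  · exact key A B a b hbB hA' hB' h1
  · rw [Finset.union_comm]
    exact key B A b a haA hB' hA' h1

theorem helly {A B C : Finset N} (hA : Conn par rk A) (hB : Conn par rk B)
    (hC : Conn par rk C) (hAB : (A ∩ B).Nonempty) (hBC : (B ∩ C).Nonempty)
    (hAC : (A ∩ C).Nonempty) : ∃ z, z ∈ A ∧ z ∈ B ∧ z ∈ C := by
  obtain ⟨a, haA, hA'⟩ := hA
  obtain ⟨b, hbB, hB'⟩ := hB
  obtain ⟨c, hcC, hC'⟩ := hC
  obtain ⟨x, hx⟩ := hAB
  obtain ⟨y, hy⟩ := hBC
  obtain ⟨w, hw⟩ := hAC
  have h1 := top_mem hA' hB' (Finset.mem_inter.1 hx).1 (Finset.mem_inter.1 hx).2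
  have h2 := top_mem hB' hC' (Finset.mem_inter.1 hy).1 (Finset.mem_inter.1 hy).2
  have h3 := top_mem hA' hC' (Finset.mem_inter.1 hw).1 (Finset.mem_inter.1 hw).2
  rcases h1 with h1 | h1
  · -- a ∈ B
    rcases h3 with h3 | h3
    · exact ⟨a, haA, h1, h3⟩
    · -- c ∈ A
      rcases h2 with h2 | h2
      · -- b ∈ C : cyclic
        have e1 := top_le hB' h1
        have e2 := top_le hC' h2
        have e3 := top_le hA' h3
        have : a = b := top_eq hB' h1 (by omega)
        exact ⟨a, haA, h1, by rw [this]; exact h2⟩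
      · exact ⟨c, h3, h2, hcC⟩
  · -- b ∈ A
    rcases h2 with h2 | h2
    · exact ⟨b, h1, hbB, h2⟩
    · -- c ∈ B
      rcases h3 with h3 | h3
      · have e1 := top_le hA' h1
        have e2 := top_le hB' h2
        have e3 := top_le hC' h3
        have : b = a := top_eq hA' h1 (by omega)
        exact ⟨a, haA, by rw [← this]; exact hbB, h3⟩
      · exact ⟨c, h3, h2, hcC⟩

theorem noC4 {X Y P Q : Finset N} (hX : Conn par rk X) (hY : Conn par rk Y)
    (hP : Conn par rk P) (hQ : Conn par rk Q) (hXY : (X ∩ Y).Nonempty)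
    (hXP : (X ∩ P).Nonempty) (hYQ : (Y ∩ Q).Nonempty) (hPY : ¬ (P ∩ Y).Nonempty)
    (hQX : ¬ (Q ∩ X).Nonempty) : ¬ (P ∩ Q).Nonempty := by
  intro hPQ
  have hU := Conn.union hP hQ hPQ
  have h1 : (Y ∩ (P ∪ Q)).Nonempty :=
    hYQ.mono (Finset.inter_subset_inter_left Finset.subset_union_right)
  have h2 : (X ∩ (P ∪ Q)).Nonempty :=
    hXP.mono (Finset.inter_subset_inter_left Finset.subset_union_left)
  obtain ⟨z, hz1, hz2, hz3⟩ := helly hX hY hU hXY h1 h2
  rcases Finset.mem_union.1 hz3 with h3 | h3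
  · exact hPY ⟨z, Finset.mem_inter.2 ⟨h3, hz2⟩⟩
  · exact hQX ⟨z, Finset.mem_inter.2 ⟨h3, hz1⟩⟩

/-- Among finitely many subtrees there is one whose top lies in all the members meeting it. -/
theorem exists_last {V : Type} [DecidableEq V] (M : Finset V) (hM : M.Nonempty)
    (T : V → Finset N) (hT : ∀ m ∈ M, Conn par rk (T m)) :
    ∃ m ∈ M, ∃ a ∈ T m, ∀ m' ∈ M, (T m ∩ T m').Nonempty → a ∈ T m' := by
  classical
  have htop : ∀ m, ∃ a, m ∈ M → a ∈ T m ∧ ∀ z ∈ T m, z ≠ a → par z ∈ T m ∧ rk (par z) < rk z := by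
    intro m
    by_cases hm : m ∈ M
    · obtain ⟨a, h1, h2⟩ := hT m hm
      exact ⟨a, fun _ => ⟨h1, h2⟩⟩
    · obtain ⟨m0, hm0⟩ := hM
      obtain ⟨a, -, -⟩ := hT m0 hm0
      exact ⟨a, fun hh => absurd hh hm⟩
  choose top htop using htop
  obtain ⟨m, hm, hmax⟩ := Finset.exists_max_image M (fun m => rk (top m)) hM
  refine ⟨m, hm, top m, (htop m hm).1, ?_⟩
  intro m' hm' hmm'
  obtain ⟨z, hz⟩ := hmm'
  rcases top_mem (htop m hm).2 (htop m' hm').2 (Finset.mem_inter.1 hz).1
    (Finset.mem_inter.1 hz).2 with h1 | h1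
  · exact h1
  · have h2 := hmax m' hm'
    have h3 := top_eq (htop m hm).2 h1 h2
    rw [← h3]
    exact (htop m' hm').1

end conn

theorem parent_unique {N : Type} {T : SimpleGraph N} (hT : T.IsTree) (r0 : N) {u w w' : N}
    (h1 : T.Adj u w) (h2 : T.Adj u w') (h3 : T.dist r0 u = T.dist r0 w + 1)
    (h4 : T.dist r0 u = T.dist r0 w' + 1) : w = w' := by
  classical
  have hlen : ∀ (x : N) (p : T.Walk r0 x), p.IsPath → p.length = T.dist r0 x := by
    intro x p hp
    obtain ⟨q, hq, hq'⟩ := hT.connected.exists_path_of_dist r0 x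
    have := (hT.existsUnique_path r0 x).unique hp hq
    rw [this, hq']
  have key : ∀ (x : N), T.Adj u x → T.dist r0 u = T.dist r0 x + 1 →
      ∀ q : T.Walk r0 u, q.IsPath → q.penultimate = x := by
    intro x hx hd q hq
    obtain ⟨p, hp, -⟩ := hT.existsUnique_path r0 x
    have hu : u ∉ p.support := by
      intro hu
      have h5 := hlen x p hp
      have h6 := hlen u (p.takeUntil u hu) (hp.takeUntil hu)
      have h7 := p.length_takeUntil_le_length hu
      omega
    have h8 := hT.isAcyclic.mem_support_of_ne_mem_support_of_adj_of_isPath hq hp hx hu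
    have h9 := hT.isAcyclic.path_concat hp hq hx.symm h8
    rw [h9]
    simp
  obtain ⟨q, hq, -⟩ := hT.existsUnique_path r0 u
  rw [← key w h1 h3 q hq, ← key w' h2 h4 q hq]

theorem exists_parent {N : Type} {T : SimpleGraph N} (hT : T.IsTree) (r0 z : N) (hz : z ≠ r0) :
    ∃ w, T.Adj z w ∧ T.dist r0 z = T.dist r0 w + 1 := by
  obtain ⟨p, hp⟩ := hT.connected.exists_walk_length_eq_dist r0 z
  have hnil : ¬ p.Nil := SimpleGraph.Walk.not_nil_of_ne hz.symm
  have hadj : T.Adj p.penultimate z := p.adj_penultimate hnil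
  refine ⟨p.penultimate, hadj.symm, ?_⟩
  rcases hT.dist_eq_dist_add_one_of_adj r0 hadj.symm with h | h
  · exact h
  · exfalso
    have h1 : T.dist r0 p.penultimate ≤ p.dropLast.length := T.dist_le _
    have h2 : p.dropLast.length ≤ p.length := by
      simp [SimpleGraph.Walk.dropLast]
    omega

theorem conn_of_tree {n : ℕ} {T : SimpleGraph (Fin n)} (hT : T.IsTree) :
    ∃ (par : Fin n → Fin n) (rk : Fin n → ℕ), ∀ A : Finset (Fin n), A.Nonempty →
      (∀ i ∈ A, ∀ j ∈ A, ∃ p : T.Walk i j, ∀ x ∈ p.support, x ∈ A) → Conn par rk A := by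
  classical
  obtain ⟨r0⟩ := hT.connected.nonempty
  have hpar : ∀ z, ∃ w, (z = r0 → w = r0) ∧ (z ≠ r0 → T.Adj z w ∧ T.dist r0 z = T.dist r0 w + 1) := by
    intro z
    by_cases hz : z = r0
    · exact ⟨r0, fun _ => rfl, fun h => absurd hz h⟩
    · obtain ⟨w, hw⟩ := exists_parent hT r0 z hz
      exact ⟨w, fun h => absurd h hz, fun _ => hw⟩
  choose par hpar1 hpar2 using hpar
  refine ⟨par, fun z => T.dist r0 z, ?_⟩
  intro A hA hconn
  obtain ⟨a, haA, hmin⟩ := Finset.exists_min_image A (fun z => T.dist r0 z) hA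
  have hle : ∀ (j : ℕ) (u : Fin n), T.dist r0 (par^[j] u) ≤ T.dist r0 u := by
    intro j
    induction j with
    | zero => intro u; exact le_rfl
    | succ j ih =>
      intro u
      rw [Function.iterate_succ_apply]
      refine (ih (par u)).trans ?_
      by_cases hu : u = r0
      · rw [hpar1 u hu, hu]
      · have := (hpar2 u hu).2
        omega
  refine ⟨a, haA, ?_⟩
  intro z hz hza
  have hzr : z ≠ r0 := by
    intro h
    have h1 := hmin z hz
    rw [h, SimpleGraph.dist_self] at h1
    have h2 : T.dist r0 a = 0 := by omega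
    have h3 : r0 = a := (hT.connected.dist_eq_zero_iff).1 h2
    exact hza (h.trans h3)
  have hz2 := hpar2 z hzr
  refine ⟨?_, by show T.dist r0 (par z) < T.dist r0 z; omega⟩
  -- descendants of z
  have hnota : ¬ ∃ j, par^[j] a = z := by
    rintro ⟨j, hj⟩
    cases j with
    | zero => exact hza hj.symm
    | succ j =>
      rw [Function.iterate_succ_apply] at hj
      by_cases ha0 : a = r0
      · have h1 : ∀ j, par^[j] r0 = r0 := by
          intro j
          induction j with
          | zero => rfl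
          | succ j ih => rw [Function.iterate_succ_apply, hpar1 r0 rfl, ih]
        rw [ha0, hpar1 r0 rfl, h1 j] at hj
        exact hzr hj.symm
      · have h1 := hle j (par a)
        rw [hj] at h1
        have h2 := (hpar2 a ha0).2
        have h3 := hmin z hz
        omega
  obtain ⟨p, hp⟩ := hconn z hz a haA
  have key : ∀ (u v : Fin n) (p : T.Walk u v), (∃ j, par^[j] u = z) →
      (¬ ∃ j, par^[j] v = z) → par z ∈ p.support := by
    intro u v p
    induction p with
    | nil => intro h1 h2; exact absurd h1 h2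
    | @cons u u1 v h p' ih =>
      intro h1 h2
      by_cases h3 : ∃ j, par^[j] u1 = z
      · exact List.mem_cons_of_mem _ (ih h3 h2)
      · have hu1 : u1 = par z := by
          rcases hT.dist_eq_dist_add_one_of_adj r0 h with h4 | h4
          · have hu0 : u ≠ r0 := by
              intro hh
              rw [hh, SimpleGraph.dist_self] at h4
              omega
            have h5 := hpar2 u hu0
            have h6 : u1 = par u := parent_unique hT r0 h h5.1 h4 h5.2
            obtain ⟨j, hj⟩ := h1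
            cases j with
            | zero =>
              have : u = z := hj
              rw [h6, this]
            | succ j =>
              rw [Function.iterate_succ_apply, ← h6] at hj
              exact absurd ⟨j, hj⟩ h3
          · have hu0 : u1 ≠ r0 := by
              intro hh
              rw [hh, SimpleGraph.dist_self] at h4
              omega
            have h5 := hpar2 u1 hu0
            have h6 : u = par u1 := parent_unique hT r0 h.symm h5.1 h4 h5.2
            obtain ⟨j, hj⟩ := h1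
            exfalso
            apply h3
            refine ⟨j + 1, ?_⟩
            rw [Function.iterate_succ_apply, ← h6]
            exact hj
        have h9 := p'.start_mem_support
        have h10 : par z ∈ p'.support := by rw [← hu1]; exact h9
        rw [SimpleGraph.Walk.support_cons]
        exact List.mem_cons_of_mem _ h10
  exact hp _ (key z a p ⟨0, rfl⟩ hnota)


section model

variable {V : Type} [DecidableEq V] {N : Type} [DecidableEq N]

/-- A subtree model on `A`: cliques of size at most `w`, induced matching number of every bag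
at most `k`. -/
structure Good (par : N → N) (rk : N → ℕ) (G : SimpleGraph V) (w k : ℕ) (A : Finset V)
    (T : V → Finset N) : Prop where
  conn : ∀ v ∈ A, Conn par rk (T v)
  adj : ∀ u ∈ A, ∀ v ∈ A, G.Adj u v → (T u ∩ T v).Nonempty
  mu : ∀ i : N, ∀ S : Finset V, S ⊆ A →
    (∀ v ∈ S, ∃! u : V, u ∈ S ∧ G.Adj v u) →
    (∀ v ∈ S, ∃ u ∈ S, G.Adj v u ∧ (i ∈ T v ∨ i ∈ T u)) → S.card ≤ 2 * k
  cl : ∀ s : Finset V, s ⊆ A → G.IsClique (s : Set V) → s.card ≤ w

/-- No subtree can be replaced by a smaller one. -/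
def RedC (par : N → N) (rk : N → ℕ) (G : SimpleGraph V) (A : Finset V) (T : V → Finset N) :
    Prop :=
  ∀ x ∈ A, ∀ W : Finset N, W ⊆ T x → Conn par rk W →
    (∀ q ∈ A, G.Adj x q → (W ∩ T q).Nonempty) → T x ⊆ W

/-- Every member of `F` has a node in no other member. -/
def Irr (T : V → Finset N) (F : Finset V) : Prop :=
  ∀ y ∈ F, ∃ s ∈ T y, ∀ y' ∈ F, y' ≠ y → s ∉ T y'

/-- `Q` is a clique of size `w` inside `A`. -/
def IsK (G : SimpleGraph V) (A : Finset V) (w : ℕ) (Q : Finset V) : Prop :=
  Q ⊆ A ∧ G.IsClique (Q : Set V) ∧ Q.card = w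

end model

/-- TM.RED: minimal models exist. -/
def S_RED : Prop :=
  ∀ (V N : Type) [DecidableEq V] [DecidableEq N] (par : N → N) (rk : N → ℕ)
    (G : SimpleGraph V) (w k : ℕ) (A : Finset V) (T : V → Finset N),
    Good par rk G w k A T → ∃ T' : V → Finset N, Good par rk G w k A T' ∧ RedC par rk G A T'

/-- TM.L1: independent irredundant families through a node have at most `k` members. -/
def S_L1 : Prop :=
  ∀ (V N : Type) [DecidableEq V] [DecidableEq N] (par : N → N) (rk : N → ℕ)
    (G : SimpleGraph V) (w k : ℕ) (A : Finset V) (T : V → Finset N),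
    1 ≤ k → Good par rk G w k A T → RedC par rk G A T →
    ∀ (z : N) (F : Finset V), F ⊆ A → (∀ y ∈ F, z ∈ T y) → Irr T F →
      (∀ x ∈ F, ∀ y ∈ F, ¬ G.Adj x y) → F.card ≤ k

/-- TM.RAM: a Ramsey bound. -/
def S_RAM : Prop :=
  ∀ (V : Type) [DecidableEq V] (G : SimpleGraph V) (w k : ℕ) (F : Finset V),
    (∀ s : Finset V, s ⊆ F → G.IsClique (s : Set V) → s.card ≤ w) →
    (∀ s : Finset V, s ⊆ F → (∀ x ∈ s, ∀ y ∈ s, ¬ G.Adj x y) → s.card ≤ k) →
    F.card ≤ (w + 1) ^ k

/-- TM.PHI: the guard map. -/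
def S_PHI : Prop :=
  ∀ (V N : Type) [DecidableEq V] [DecidableEq N] (par : N → N) (rk : N → ℕ)
    (A : Finset V) (T : V → Finset N) (n : ℕ), A.Nonempty →
    (∀ v ∈ A, Conn par rk (T v)) →
    (∀ (z : N) (F : Finset V), F ⊆ A → (∀ y ∈ F, z ∈ T y) → Irr T F → F.card ≤ n) →
    ∃ phi : N → V, (∀ x ∈ A, ∀ t ∈ T x, phi t ∈ A ∧ t ∈ T (phi t)) ∧
      ∀ x ∈ A, ((T x).image phi).card ≤ n * n

/-- TM.PIV: the non-neighbours meeting a vertex of a largest clique. -/
def S_PIV : Prop :=
  ∀ (V N : Type) [DecidableEq V] [DecidableEq N] (par : N → N) (rk : N → ℕ)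
    (G : SimpleGraph V) (w k f : ℕ) (A : Finset V) (T : V → Finset N),
    Good par rk G (w + 1) (k + 1) A T →
    (∀ (B : Finset V) (T' : V → Finset N), Good par rk G (w + 1) k B T' → Col G B f) →
    ∀ (K : Finset V) (m : V), IsK G A (w + 1) K → m ∈ K →
    ∀ B : Finset V, B ⊆ A → (∀ x ∈ B, (T x ∩ T m).Nonempty ∧ ¬ G.Adj x m) →
      Col G B (1 + w * f)

/-- TM.CHD: a proper colouring seen `P` at a time gives `P` colours. -/
def S_CHD : Prop :=
  ∀ (V N Γ : Type) [DecidableEq V] [DecidableEq N] [DecidableEq Γ] [Fintype N]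
    (par : N → N) (rk : N → ℕ) (G : SimpleGraph V) (S : Finset V) (T : V → Finset N)
    (g : V → Γ) (P : ℕ),
    (∀ v ∈ S, Conn par rk (T v)) →
    (∀ u ∈ S, ∀ v ∈ S, G.Adj u v → (T u ∩ T v).Nonempty) →
    (∀ u ∈ S, ∀ v ∈ S, G.Adj u v → g u ≠ g v) →
    (∀ t : N, ((S.filter (fun x => t ∈ T x)).image g).card ≤ P) →
    Col G S P

/-- TM.HIT: a set hitting the largest cliques, with a colouring. -/
def S_HIT : Prop :=
  ∀ (V N : Type) [DecidableEq V] [DecidableEq N] [Fintype N] (par : N → N) (rk : N → ℕ)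
    (G : SimpleGraph V) (w k f : ℕ) (A : Finset V) (T : V → Finset N),
    Good par rk G (w + 1) (k + 1) A T →
    (∀ (B : Finset V) (T' : V → Finset N), Good par rk G (w + 1) k B T' → Col G B f) →
    (∀ x ∈ A, ∃ K : Finset V, IsK G A (w + 1) K ∧ x ∈ K) →
    ∃ S : Finset V, S ⊆ A ∧
      Col G S (((w + 2) ^ (k + 1)) ^ 3 * (1 + w * f)) ∧
      ∀ Q : Finset V, Q ⊆ A \ S → G.IsClique (Q : Set V) → Q.card ≤ w

end Pool.Agent.T6.H97.TM
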