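import Pool.Agent.T6.H97.TM.Defs

/-!
# Module PHI of project TM (MP_41f3d4_co): the guard map
-/

set_option autoImplicit false

namespace Pool.Agent.T6.H97.TM

open Finset

namespace ModPHI

variable {N V : Type} [DecidableEq N] [DecidableEq V] (T : V → Finset N) (A : Finset V)

/-- the centres -/
theorem centres (f : V → ℕ) (B : Finset V) (hBA : B ⊆ A) :
    ∃ (Z : Finset N) (r : N → ℕ),
      (∀ z ∈ Z, ∃ x ∈ B, z ∈ T x ∧ f x = r z) ∧
      (∀ z ∈ Z, ∀ z' ∈ Z, z ≠ z' → ∀ y ∈ A, z ∈ T y → z' ∉ T y) ∧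
      (∀ x ∈ B, ∀ s ∈ T x, ∃ z ∈ Z, (∃ y ∈ A, s ∈ T y ∧ z ∈ T y) ∧ r z ≤ f x) := by
  classical
  induction B using Finset.induction_on_max_value f with
  | empty => exact ⟨∅, fun _ => 0, by simp, by simp, by simp⟩
  | insert a B haB hmax ih =>
    obtain ⟨Z, r, h1, h2, h3⟩ := ih (fun x hx => hBA (mem_insert_of_mem hx))
    have haA : a ∈ A := hBA (mem_insert_self a B)
    by_cases hcov : ∀ s ∈ T a, ∃ z ∈ Z, ∃ y ∈ A, s ∈ T y ∧ z ∈ T y
    · refine ⟨Z, r, ?_, h2, ?_⟩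
      · intro z hz
        obtain ⟨x, hx, hx'⟩ := h1 z hz
        exact ⟨x, mem_insert_of_mem hx, hx'⟩
      · intro x hx s hs
        rcases mem_insert.1 hx with rfl | hx
        · obtain ⟨z, hz, hy⟩ := hcov s hs
          obtain ⟨x', hx', -, hr⟩ := h1 z hz
          exact ⟨z, hz, hy, hr ▸ hmax x' hx'⟩
        · exact h3 x hx s hs
    · push Not at hcov
      obtain ⟨z₀, hz₀, hno⟩ := hcov
      have hz₀Z : z₀ ∉ Z := fun h => hno z₀ h a haA hz₀ hz₀
      refine ⟨insert z₀ Z, Function.update r z₀ (f a), ?_, ?_, ?_⟩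
      · intro z hz
        rcases mem_insert.1 hz with hzz | hzz
        · rw [hzz, Function.update_self]
          exact ⟨a, mem_insert_self a B, hz₀, rfl⟩
        · obtain ⟨x, hx, hx1, hx2⟩ := h1 z hzz
          refine ⟨x, mem_insert_of_mem hx, hx1, ?_⟩
          have hne : z ≠ z₀ := fun h => hz₀Z (h ▸ hzz)
          rw [Function.update_of_ne hne]
          exact hx2
      · intro z hz z' hz' hne y hy hzy hzy'
        rcases mem_insert.1 hz with h5 | h5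
        · rcases mem_insert.1 hz' with h6 | h6
          · exact hne (h5.trans h6.symm)
          · rw [h5] at hzy
            exact hno z' h6 y hy hzy hzy'
        · rcases mem_insert.1 hz' with h6 | h6
          · rw [h6] at hzy'
            exact hno z h5 y hy hzy' hzy
          · exact h2 z h5 z' h6 hne y hy hzy hzy'
      · intro x hx s hs
        rcases mem_insert.1 hx with rfl | hx
        · exact ⟨z₀, mem_insert_self _ _, ⟨x, haA, hs, hz₀⟩, by rw [Function.update_self]⟩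
        · obtain ⟨z, hz, hy, hr⟩ := h3 x hx s hs
          refine ⟨z, mem_insert_of_mem hz, hy, ?_⟩
          have hne : z ≠ z₀ := fun h => hz₀Z (h ▸ hz)
          rw [Function.update_of_ne hne]
          exact hr

/-- an irredundant subcover -/
theorem subcover (B : Finset V) : ∃ F ⊆ B, Irr T F ∧ ∀ y ∈ B, ∀ s ∈ T y, ∃ m ∈ F, s ∈ T m := by
  classical
  have hne : (B.powerset.filter fun F => ∀ y ∈ B, ∀ s ∈ T y, ∃ m ∈ F, s ∈ T m).Nonempty :=
    ⟨B, mem_filter.2 ⟨mem_powerset_self B, fun y hy s hs => ⟨y, hy, hs⟩⟩⟩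
  obtain ⟨F, hF, hmin⟩ := Finset.exists_min_image _ Finset.card hne
  obtain ⟨hFB, hcov⟩ := mem_filter.1 hF
  rw [mem_powerset] at hFB
  refine ⟨F, hFB, ?_, hcov⟩
  intro m hm
  by_contra hno
  push Not at hno
  have h1 : F.erase m ∈ B.powerset.filter fun F => ∀ y ∈ B, ∀ s ∈ T y, ∃ m ∈ F, s ∈ T m := by
    refine mem_filter.2 ⟨mem_powerset.2 ((erase_subset m F).trans hFB), ?_⟩
    intro y hy s hs
    obtain ⟨m', hm', hs'⟩ := hcov y hy s hs
    by_cases h : m' = m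
    · subst h
      obtain ⟨m'', h2, h3, h4⟩ := hno s hs'
      exact ⟨m'', mem_erase.2 ⟨h3, h2⟩, h4⟩
    · exact ⟨m', mem_erase.2 ⟨h, hm'⟩, hs'⟩
  have h2 := hmin _ h1
  have h3 := card_erase_lt_of_mem hm
  omega

end ModPHI

open ModPHI in
/-- Module PHI. -/
theorem phi : S_PHI := by
  classical
  intro V N _ _ par rk A T n hAne hT hn
  obtain ⟨x₀, hx₀⟩ := hAne
  -- the tops
  have htop : ∀ x, ∃ a, x ∈ A → a ∈ T x ∧
      ∀ z ∈ T x, z ≠ a → par z ∈ T x ∧ rk (par z) < rk z := by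
    intro x
    by_cases hx : x ∈ A
    · obtain ⟨a, h1, h2⟩ := hT x hx
      exact ⟨a, fun _ => ⟨h1, h2⟩⟩
    · obtain ⟨a, -, -⟩ := hT x₀ hx₀
      exact ⟨a, fun hh => absurd hh hx⟩
  choose top htop using htop
  obtain ⟨Z, r, hZ1, hZ2, hZ3⟩ := centres T A (fun x => rk (top x)) A (Finset.Subset.refl A)
  -- the irredundant subcovers
  have hsub : ∀ t : N, ∃ F ⊆ A.filter (fun x => t ∈ T x), Irr T F ∧
      ∀ y ∈ A.filter (fun x => t ∈ T x), ∀ s ∈ T y, ∃ m ∈ F, s ∈ T m := fun t =>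
    subcover T (A.filter fun x => t ∈ T x)
  choose F hF1 hF2 hF3 using hsub
  have hFc : ∀ t, (F t).card ≤ n := fun t => hn t (F t)
    (fun m hm => (mem_filter.1 (hF1 t hm)).1) (fun m hm => (mem_filter.1 (hF1 t hm)).2) (hF2 t)
  -- the regions
  have hreg : ∀ s : N, ∃ z : N, (∃ x ∈ A, s ∈ T x) → z ∈ Z ∧ (∃ y ∈ A, s ∈ T y ∧ z ∈ T y) ∧
      ∀ x ∈ A, s ∈ T x → r z ≤ rk (top x) := by
    intro s
    by_cases hs : ∃ x ∈ A, s ∈ T x
    · have hne : (Z.filter fun z => ∃ y ∈ A, s ∈ T y ∧ z ∈ T y).Nonempty := by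
        obtain ⟨x, hx, hsx⟩ := hs
        obtain ⟨z, hz, hy, -⟩ := hZ3 x hx s hsx
        exact ⟨z, mem_filter.2 ⟨hz, hy⟩⟩
      obtain ⟨z, hz, hmin⟩ := Finset.exists_min_image _ r hne
      obtain ⟨h1, h2⟩ := mem_filter.1 hz
      refine ⟨z, fun _ => ⟨h1, h2, fun x hx hsx => ?_⟩⟩
      obtain ⟨z', hz', hy', hr'⟩ := hZ3 x hx s hsx
      exact (hmin z' (mem_filter.2 ⟨hz', hy'⟩)).trans hr'
    · exact ⟨s, fun h => absurd h hs⟩
  choose reg hreg using hreg
  -- the guards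
  have hphi : ∀ s : N, ∃ m : V, (∃ x ∈ A, s ∈ T x) → m ∈ F (reg s) ∧ s ∈ T m := by
    intro s
    by_cases hs : ∃ x ∈ A, s ∈ T x
    · obtain ⟨-, ⟨y, hy, hsy, hzy⟩, -⟩ := hreg s hs
      obtain ⟨m, hm, hsm⟩ := hF3 (reg s) y (mem_filter.2 ⟨hy, hzy⟩) s hsy
      exact ⟨m, fun _ => ⟨hm, hsm⟩⟩
    · exact ⟨x₀, fun h => absurd h hs⟩
  choose φ hφ using hphi
  refine ⟨φ, ?_, ?_⟩
  · intro x hx t ht
    obtain ⟨h1, h2⟩ := hφ t ⟨x, hx, ht⟩
    exact ⟨(mem_filter.1 (hF1 _ h1)).1, h2⟩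
  -- the regions of the nodes of a member
  have hclaim : ∀ x ∈ A, ∀ s ∈ T x, ∃ m ∈ A, top x ∈ T m ∧ reg s ∈ T m := by
    intro x hx s hs
    obtain ⟨hz, ⟨y, hy, hsy, hzy⟩, hr⟩ := hreg s ⟨x, hx, hs⟩
    obtain ⟨x', hx', hzx', hrx'⟩ := hZ1 _ hz
    have hrr : rk (top x') ≤ rk (top x) := hrx' ▸ hr x hx hs
    rcases top_mem (htop x hx).2 (htop y hy).2 hs hsy with h1 | h1
    · exact ⟨y, hy, h1, hzy⟩
    · rcases top_mem (htop y hy).2 (htop x' hx').2 hzy hzx' with h2 | h2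
      · rcases top_mem (htop x hx).2 (htop x' hx').2 h1 h2 with h3 | h3
        · exact ⟨x', hx', h3, hzx'⟩
        · have h4 := top_eq (htop x hx).2 h3 hrr
          refine ⟨x', hx', ?_, hzx'⟩
          rw [← h4]
          exact (htop x' hx').1
      · have h3 := top_le (htop y hy).2 h2
        have h4 := top_eq (htop x hx).2 h1 (h3.trans hrr)
        refine ⟨y, hy, ?_, hzy⟩
        rw [← h4]
        exact (htop y hy).1
  -- few centres
  have hfew : ∀ t : N, (Z.filter fun z => ∃ m ∈ A, t ∈ T m ∧ z ∈ T m).card ≤ n := by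
    intro t
    have hch : ∀ z : N, ∃ m : V, (z ∈ Z.filter fun z => ∃ m ∈ A, t ∈ T m ∧ z ∈ T m) →
        m ∈ A ∧ t ∈ T m ∧ z ∈ T m := by
      intro z
      by_cases hz : z ∈ Z.filter fun z => ∃ m ∈ A, t ∈ T m ∧ z ∈ T m
      · obtain ⟨m, h1, h2, h3⟩ := (mem_filter.1 hz).2
        exact ⟨m, fun _ => ⟨h1, h2, h3⟩⟩
      · exact ⟨x₀, fun h => absurd h hz⟩
    choose g hg using hch
    set C := Z.filter fun z => ∃ m ∈ A, t ∈ T m ∧ z ∈ T m with hC
    have hinj : Set.InjOn g (C : Set N) := by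
      intro z hz z' hz' hgg
      by_contra hne
      have h1 := hg z hz
      have h2 := hg z' hz'
      exact hZ2 z (mem_filter.1 hz).1 z' (mem_filter.1 hz').1 hne (g z) h1.1 h1.2.2
        (hgg ▸ h2.2.2)
    rw [← Finset.card_image_of_injOn hinj]
    apply hn t
    · intro m hm
      obtain ⟨z, hz, rfl⟩ := mem_image.1 hm
      exact (hg z hz).1
    · intro m hm
      obtain ⟨z, hz, rfl⟩ := mem_image.1 hm
      exact (hg z hz).2.1
    · intro m hm
      obtain ⟨z, hz, rfl⟩ := mem_image.1 hm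
      refine ⟨z, (hg z hz).2.2, ?_⟩
      intro m' hm' hne
      obtain ⟨z', hz', rfl⟩ := mem_image.1 hm'
      have hzz : z' ≠ z := fun h => hne (h ▸ rfl)
      exact hZ2 z' (mem_filter.1 hz').1 z (mem_filter.1 hz).1 hzz (g z') (hg z' hz').1
        (hg z' hz').2.2
  -- few guards of a member
  · intro x hx
    have hsub : (T x).image φ ⊆
        (Z.filter fun z => ∃ m ∈ A, top x ∈ T m ∧ z ∈ T m).biUnion F := by
      intro m hm
      obtain ⟨s, hs, rfl⟩ := mem_image.1 hm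
      refine mem_biUnion.2 ⟨reg s, ?_, (hφ s ⟨x, hx, hs⟩).1⟩
      exact mem_filter.2 ⟨(hreg s ⟨x, hx, hs⟩).1, hclaim x hx s hs⟩
    calc ((T x).image φ).card ≤ _ := card_le_card hsub
      _ ≤ (Z.filter fun z => ∃ m ∈ A, top x ∈ T m ∧ z ∈ T m).card * n :=
          card_biUnion_le_card_mul _ _ _ fun z _ => hFc z
      _ ≤ n * n := Nat.mul_le_mul_right _ (hfew (top x))

end Pool.Agent.T6.H97.TM
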